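import Mathlib

/-!
Homogeneous polynomials without common nonzero zero define a finite map, which sends Zariski
closed sets to Zariski closed sets.
-/

namespace Pool.Agent.Work.MP_0a826e_ag

open MvPolynomial

theorem eval_aeval' {σ τ : Type} (γ : σ → MvPolynomial τ ℂ) (x : τ → ℂ)
    (g : MvPolynomial σ ℂ) : eval x (aeval γ g) = eval (fun i => eval x (γ i)) g := by
  induction g using MvPolynomial.induction_on with
  | C a => simp
  | add p q hp hq => simp only [map_add, hp, hq]
  | mul_X p i hp => simp only [map_mul, hp, aeval_X, eval_X]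

theorem monomial_mem_of_degree {σ τ : Type} [Fintype σ] [Fintype τ] (F : σ → MvPolynomial τ ℂ)
    (h0 : ∀ v : τ → ℂ, (∀ i, eval v (F i) = 0) → v = 0) :
    ∃ N : ℕ, ∀ s : τ →₀ ℕ, N ≤ s.degree → ∀ c : ℂ,
      monomial s c ∈ Ideal.span (Set.range F) := by
  classical
  have h1 : ∀ j : τ, ∃ e : ℕ, (X j : MvPolynomial τ ℂ) ^ e ∈ Ideal.span (Set.range F) := by
    intro j
    have : (X j : MvPolynomial τ ℂ) ∈ (Ideal.span (Set.range F)).radical := by
      rw [← vanishingIdeal_zeroLocus_eq_radical (K := ℂ)]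
      intro v hv
      have := h0 v fun i => hv (F i) (Ideal.subset_span ⟨i, rfl⟩)
      simp [this]
    exact this
  choose e he using h1
  refine ⟨∑ j, e j + 1, fun s hs c => ?_⟩
  obtain ⟨j, hj⟩ : ∃ j, e j ≤ s j := by
    by_contra hc
    rw [not_exists] at hc
    have h2 : ∑ j, s j ≤ ∑ j, e j := Finset.sum_le_sum fun j _ => (not_le.1 (hc j)).le
    rw [Finsupp.degree_eq_sum] at hs
    omega
  have h3 : Finsupp.single j (e j) ≤ s := Finsupp.single_le_iff.2 hj
  have h4 : monomial s c = monomial (s - Finsupp.single j (e j)) c * (X j) ^ e j := by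
    rw [X_pow_eq_monomial, monomial_mul, mul_one, tsub_add_cancel_of_le h3]
  rw [h4]
  exact Ideal.mul_mem_left _ _ (he j)

theorem closed_image {σ τ : Type} [Fintype σ] [Fintype τ] (F : σ → MvPolynomial τ ℂ) (d : ℕ)
    (hd : 0 < d) (hF : ∀ i, (F i).IsHomogeneous d)
    (h0 : ∀ v : τ → ℂ, (∀ i, eval v (F i) = 0) → v = 0) (Z : Set (τ → ℂ))
    (hZ : ∀ y, (∀ g ∈ vanishingIdeal ℂ Z, eval y g = 0) → y ∈ Z) (v : σ → ℂ)
    (hv : ∀ g : MvPolynomial σ ℂ, (∀ y ∈ Z, eval (fun i => eval y (F i)) g = 0) → eval v g = 0) :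
    ∃ y ∈ Z, (fun i => eval y (F i)) = v := by
  classical
  let _ : Algebra (MvPolynomial σ ℂ) (MvPolynomial τ ℂ) := (aeval F).toRingHom.toAlgebra
  have ham : ∀ g, algebraMap (MvPolynomial σ ℂ) (MvPolynomial τ ℂ) g = aeval F g := fun _ => rfl
  have hsm : ∀ (g : MvPolynomial σ ℂ) (h : MvPolynomial τ ℂ), g • h = aeval F g * h :=
    fun _ _ => rfl
  obtain ⟨N, hN⟩ := monomial_mem_of_degree F h0
  let M : Submodule (MvPolynomial σ ℂ) (MvPolynomial τ ℂ) :=
    Submodule.span _ ((fun s : τ →₀ ℕ => monomial s (1 : ℂ)) '' {s | s.degree < N})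
  have hM : ∀ k, ∀ h : MvPolynomial τ ℂ, h.IsHomogeneous k → h ∈ M := by
    intro k
    induction k using Nat.strong_induction_on with
    | _ k ih =>
      intro h hh
      have hdeg : ∀ s ∈ h.support, s.degree = k := fun s hs => by
        have := hh (mem_support_iff.1 hs)
        rw [Finsupp.degree_eq_weight_one]
        exact this
      by_cases hk : k < N
      · rw [h.as_sum]
        refine Submodule.sum_mem _ fun s hs => ?_
        have : monomial s (coeff s h) = (C (coeff s h) : MvPolynomial σ ℂ) • monomial s (1 : ℂ) := by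
          rw [hsm, aeval_C, algebraMap_eq, C_mul_monomial, mul_one]
        rw [this]
        exact Submodule.smul_mem _ _ (Submodule.subset_span ⟨s, (hdeg s hs).trans_lt hk, rfl⟩)
      · have h1 : h ∈ Ideal.span (Set.range F) := by
          rw [h.as_sum]
          exact Ideal.sum_mem _ fun s hs => hN s ((hdeg s hs).symm ▸ not_lt.1 hk) _
        obtain ⟨a, ha⟩ := Ideal.mem_span_range_iff_exists_fun.1 h1
        rw [← homogeneousComponent_eq_self hh, ← ha, map_sum]
        refine Submodule.sum_mem _ fun i _ => ?_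
        rw [← sum_homogeneousComponent (a i), Finset.sum_mul, map_sum]
        refine Submodule.sum_mem _ fun j _ => ?_
        have h2 := (homogeneousComponent_isHomogeneous j (a i)).mul (hF i)
        rw [homogeneousComponent_of_mem h2]
        split_ifs with h3
        · have : homogeneousComponent j (a i) * F i =
              (X i : MvPolynomial σ ℂ) • homogeneousComponent j (a i) := by
            rw [hsm, aeval_X, mul_comm]
          rw [this]
          exact Submodule.smul_mem _ _
            (ih j (by omega) _ (homogeneousComponent_isHomogeneous j (a i)))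
        · exact zero_mem _
  have hfin : Module.Finite (MvPolynomial σ ℂ) (MvPolynomial τ ℂ) := by
    refine ⟨?_⟩
    have : M = ⊤ := by
      rw [eq_top_iff]
      intro h _
      rw [← sum_homogeneousComponent h]
      exact Submodule.sum_mem _ fun j _ => hM j _ (homogeneousComponent_isHomogeneous j h)
    rw [← this]
    exact Submodule.fg_span ((Finsupp.finite_of_degree_lt N).image _)
  obtain ⟨Q, hQ1, hQ2, hQ3⟩ := Ideal.exists_ideal_over_prime_of_isIntegral
    (vanishingIdeal ℂ {v} : Ideal (MvPolynomial σ ℂ)) (vanishingIdeal ℂ Z) (fun g hg => by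
      rw [mem_vanishingIdeal_singleton_iff]
      refine hv g fun y hy => ?_
      rw [← eval_aeval']
      exact (Ideal.mem_comap.1 hg) y hy)
  have hmax : Q.IsMaximal :=
    Ideal.isMaximal_of_isIntegral_of_isMaximal_comap (R := MvPolynomial σ ℂ) Q
      (hQ3 ▸ inferInstance)
  obtain ⟨y, rfl⟩ := isMaximal_iff_eq_vanishingIdeal_singleton.1 hmax
  refine ⟨y, hZ y fun g hg => (mem_vanishingIdeal_singleton_iff _ _).1 (hQ1 hg), ?_⟩
  funext i
  have h5 : (X i - C (v i) : MvPolynomial σ ℂ) ∈ vanishingIdeal ℂ {v} := by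
    rw [mem_vanishingIdeal_singleton_iff]; simp
  rw [← hQ3, Ideal.mem_comap, mem_vanishingIdeal_singleton_iff, ham] at h5
  simp only [map_sub, aeval_X, aeval_C] at h5
  have h6 : aeval y (F i) = v i := by simpa [sub_eq_zero] using h5
  exact h6

end Pool.Agent.Work.MP_0a826e_ag
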