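import Mathlib

/-!
Definitions for the tangent-space dynamical Manin-Mumford question on projective space.

A point of projective space is a line in `V = Fin n → ℂ`.  An `r`-dimensional subspace of the
tangent space `T_p = Hom(p, V / p)` is recorded, as usual, by the `(r+1)`-dimensional subspace of
`V` containing the line `p`.  The differential of the endomorphism given by homogeneous
polynomials `F` acts on such subspaces through the Jacobian matrix of `F`.
-/

namespace Pool.Agent.Work.MP_0a826e_ag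

open MvPolynomial
open scoped LinearAlgebra.Projectivization

variable {n : ℕ}

/-- The polynomial map `v ↦ (F_1(v), ..., F_n(v))` of affine space. -/
noncomputable def evalMap (F : Fin n → MvPolynomial (Fin n) ℂ) (v : Fin n → ℂ) : Fin n → ℂ :=
  fun i => eval v (F i)

/-- The differential (Jacobian matrix) of `evalMap F` at `v`. -/
noncomputable def jac (F : Fin n → MvPolynomial (Fin n) ℂ) (v : Fin n → ℂ) :
    (Fin n → ℂ) →ₗ[ℂ] (Fin n → ℂ) :=
  Matrix.toLin' (Matrix.of fun i j => eval v (pderiv j (F i)))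

/-- The self-map `[v] ↦ [F(v)]` of projective space. -/
noncomputable def projMap (F : Fin n → MvPolynomial (Fin n) ℂ)
    (hF : ∀ v, v ≠ 0 → evalMap F v ≠ 0) (p : ℙ ℂ (Fin n → ℂ)) : ℙ ℂ (Fin n → ℂ) :=
  Projectivization.mk ℂ (evalMap F p.rep) (hF p.rep p.rep_nonzero)

/-- The induced action on pairs (point, tangent subspace): `(p, W) ↦ (f p, df W)`. -/
noncomputable def tangentStep (F : Fin n → MvPolynomial (Fin n) ℂ)
    (hF : ∀ v, v ≠ 0 → evalMap F v ≠ 0) (x : ℙ ℂ (Fin n → ℂ) × Submodule ℂ (Fin n → ℂ)) :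
    ℙ ℂ (Fin n → ℂ) × Submodule ℂ (Fin n → ℂ) :=
  (projMap F hF x.1, x.2.map (jac F x.1.rep))

/-- The ideal of all polynomials vanishing on the affine cone over `Y`. -/
noncomputable def idealOf (Y : Set (ℙ ℂ (Fin n → ℂ))) : Ideal (MvPolynomial (Fin n) ℂ) :=
  vanishingIdeal ℂ {v : Fin n → ℂ | ∃ p ∈ Y, v ∈ p.submodule}

/-- `Y` is an irreducible Zariski closed subset of projective space, of dimension `r`. -/
def IsSubvariety (Y : Set (ℙ ℂ (Fin n → ℂ))) (r : ℕ) : Prop :=
  (∀ p : ℙ ℂ (Fin n → ℂ), (∀ g ∈ idealOf Y, eval p.rep g = 0) → p ∈ Y) ∧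
    (idealOf Y).IsPrime ∧
    ringKrullDim (MvPolynomial (Fin n) ℂ ⧸ idealOf Y) = ((r + 1 : ℕ) : WithBot ℕ∞)

/-- The Zariski tangent space of `Y` at `p`, as a subspace of `V` containing the line `p`. -/
noncomputable def tangentSpace (Y : Set (ℙ ℂ (Fin n → ℂ))) (p : ℙ ℂ (Fin n → ℂ)) :
    Submodule ℂ (Fin n → ℂ) :=
  ⨅ g ∈ idealOf Y, LinearMap.ker (∑ j, eval p.rep (pderiv j g) • LinearMap.proj j :
    (Fin n → ℂ) →ₗ[ℂ] ℂ)

end Pool.Agent.Work.MP_0a826e_ag
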