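import Mathlib
import Pool.Agent.Work.MP_0a826e_ag.Defs
import Pool.Agent.Work.MP_0a826e_ag.Closed

-- merged part: Pool.Agent.Work.MP_0a826e_ag.Dyn
section
/-!
One-dimensional dynamics of two commuting quadratic Lattes maps with complex multiplication by
the two primes above 2 of `ℤ[(1+√-7)/2]`.
-/

namespace Pool.Agent.Work.MP_0a826e_ag

section
variable (w : ℂ)

/-- First map. -/
noncomputable def g1 (u : ℂ) : ℂ := u * (u - (w - 2)) / ((w - 2) * u - 1)

/-- Second map. -/
noncomputable def g2 (u : ℂ) : ℂ := (-1 - w) * u / (u + 1) ^ 2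

/-- Derivative of the first map. -/
noncomputable def d1 (u : ℂ) : ℂ :=
  ((w - 2) * u ^ 2 - 2 * u + (w - 2)) / ((w - 2) * u - 1) ^ 2

/-- Derivative of the second map. -/
noncomputable def d2 (u : ℂ) : ℂ := (-1 - w) * (1 - u) / (u + 1) ^ 3

/-- The `k`-th preimage of `0` under the first map. -/
def lev : ℕ → Set ℂ
  | 0 => {0}
  | k + 1 => {u | (w - 2) * u - 1 ≠ 0 ∧ g1 w u ∈ lev k}

variable {w}

theorem a_ne (hw : w ^ 2 = w - 2) : w - 2 ≠ 0 := by
  intro h
  have h2 : w = 2 := by linear_combination h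
  rw [h2] at hw; norm_num at hw

theorem b_ne (hw : w ^ 2 = w - 2) : -1 - w ≠ 0 := by
  intro h
  have h2 : w = -1 := by linear_combination -h
  rw [h2] at hw; norm_num at hw

theorem a1_ne (hw : w ^ 2 = w - 2) : w - 1 ≠ 0 := by
  intro h
  have h2 : w = 1 := by linear_combination h
  rw [h2] at hw; norm_num at hw

theorem a3_ne (hw : w ^ 2 = w - 2) : w - 3 ≠ 0 := by
  intro h
  have h2 : w = 3 := by linear_combination h
  rw [h2] at hw; norm_num at hw

theorem zero_mem_lev (k : ℕ) : (0 : ℂ) ∈ lev w k := by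
  induction k with
  | zero => simp [lev]
  | succ k ih => simp [lev, g1, ih]

theorem lev_succ (k : ℕ) : lev w k ⊆ lev w (k + 1) := by
  induction k with
  | zero =>
    intro u hu
    have : u = 0 := hu
    rw [this]; exact zero_mem_lev 1
  | succ k ih => exact fun u hu => ⟨hu.1, ih hu.2⟩

theorem lev_mono {k l : ℕ} (h : k ≤ l) : lev w k ⊆ lev w l := by
  induction h with
  | refl => exact subset_rfl
  | step _ ih => exact ih.trans (lev_succ _)

theorem den_ne {k : ℕ} {u : ℂ} (hu : u ∈ lev w k) : (w - 2) * u - 1 ≠ 0 := (lev_succ k hu).1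

theorem g1_mem {k : ℕ} {u : ℂ} (hu : u ∈ lev w k) : g1 w u ∈ lev w k := (lev_succ k hu).2

theorem neg_one_not_mem (hw : w ^ 2 = w - 2) (k : ℕ) : (-1 : ℂ) ∉ lev w k := by
  induction k with
  | zero => simp [lev]
  | succ k ih =>
    intro h
    apply ih
    have h2 := h.2
    have h3 : g1 w (-1) = -1 := by
      have := a1_ne hw
      unfold g1
      rw [div_eq_iff h.1]; ring
    rwa [h3] at h2

theorem one_not_mem (hw : w ^ 2 = w - 2) (k : ℕ) : (1 : ℂ) ∉ lev w k := by
  intro h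
  apply neg_one_not_mem hw k
  have h2 := g1_mem h
  have h3 : g1 w 1 = -1 := by
    unfold g1
    rw [div_eq_iff (den_ne h)]; ring
  rwa [h3] at h2

theorem add_one_ne (hw : w ^ 2 = w - 2) {k : ℕ} {u : ℂ} (hu : u ∈ lev w k) : u + 1 ≠ 0 := by
  intro h
  have : u = -1 := by linear_combination h
  exact neg_one_not_mem hw k (this ▸ hu)

theorem sub_one_ne (hw : w ^ 2 = w - 2) {k : ℕ} {u : ℂ} (hu : u ∈ lev w k) : u - 1 ≠ 0 := by
  intro h
  have : u = 1 := by linear_combination h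
  exact one_not_mem hw k (this ▸ hu)

theorem den_g2 (hw : w ^ 2 = w - 2) {u : ℂ} (h1 : u + 1 ≠ 0) :
    (w - 2) * g2 w u - 1 = -(u - 1) ^ 2 / (u + 1) ^ 2 := by
  unfold g2
  field_simp
  linear_combination (-u) * hw

theorem g1_add_one {u : ℂ} (h0 : (w - 2) * u - 1 ≠ 0) :
    g1 w u + 1 = (u - 1) * (u + 1) / ((w - 2) * u - 1) := by
  unfold g1
  rw [div_add_one h0]
  congr 1
  ring

theorem g_comm (hw : w ^ 2 = w - 2) {k : ℕ} {u : ℂ} (hu : u ∈ lev w k) :
    g1 w (g2 w u) = g2 w (g1 w u) := by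
  have h0 := den_ne hu
  have h1 := add_one_ne hw hu
  have h2 := sub_one_ne hw hu
  have e1 : g1 w (g2 w u) = g2 w u * (g2 w u - (w - 2)) / ((w - 2) * g2 w u - 1) := rfl
  have e2 : g2 w (g1 w u) = (-1 - w) * g1 w u / (g1 w u + 1) ^ 2 := rfl
  rw [e1, e2, den_g2 hw h1, g1_add_one h0]
  unfold g1 g2
  field_simp
  linear_combination ((-1 - w) * u * u) * hw

theorem g2_mem (hw : w ^ 2 = w - 2) {k : ℕ} {u : ℂ} (hu : u ∈ lev w k) : g2 w u ∈ lev w k := by
  induction k generalizing u with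
  | zero =>
    have : u = 0 := hu
    simp [this, g2, lev]
  | succ k ih =>
    have h1 := add_one_ne hw hu
    have h2 := sub_one_ne hw hu
    refine ⟨?_, ?_⟩
    · rw [den_g2 hw h1]
      exact div_ne_zero (neg_ne_zero.2 (pow_ne_zero _ h2)) (pow_ne_zero _ h1)
    · rw [g_comm hw hu]; exact ih hu.2

theorem mem_of_g2_mem (hw : w ^ 2 = w - 2) {k j : ℕ} {u : ℂ} (hu : u ∈ lev w k)
    (h : g2 w u ∈ lev w j) : u ∈ lev w j := by
  induction j generalizing u with
  | zero =>
    have h0 : g2 w u = 0 := h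
    have h1 := add_one_ne hw hu
    unfold g2 at h0
    rw [div_eq_zero_iff] at h0
    rcases h0 with h0 | h0
    · rcases mul_eq_zero.1 h0 with h0 | h0
      · exact absurd h0 (b_ne hw)
      · exact h0
    · exact absurd h0 (pow_ne_zero _ h1)
  | succ j ih =>
    refine ⟨den_ne hu, ih (g1_mem hu) ?_⟩
    rw [← g_comm hw hu]; exact h.2

theorem iter_g2_mem (hw : w ^ 2 = w - 2) {k : ℕ} {u : ℂ} (hu : u ∈ lev w k) (m : ℕ) :
    (g2 w)^[m] u ∈ lev w k := by
  induction m with
  | zero => exact hu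
  | succ m ih => rw [Function.iterate_succ_apply']; exact g2_mem hw ih

theorem iter_g1_mem {k : ℕ} {u : ℂ} (hu : u ∈ lev w k) (m : ℕ) :
    (g1 w)^[m] u ∈ lev w k := by
  induction m with
  | zero => exact hu
  | succ m ih => rw [Function.iterate_succ_apply']; exact g1_mem ih

theorem mem_of_iter_g2_mem (hw : w ^ 2 = w - 2) {k j : ℕ} {u : ℂ} (hu : u ∈ lev w k) (m : ℕ)
    (h : (g2 w)^[m] u ∈ lev w j) : u ∈ lev w j := by
  induction m with
  | zero => exact h
  | succ m ih =>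
    rw [Function.iterate_succ_apply'] at h
    exact ih (mem_of_g2_mem hw (iter_g2_mem hw hu m) h)

theorem iter_g1_eq_zero {k : ℕ} {u : ℂ} (hu : u ∈ lev w k) : (g1 w)^[k] u = 0 := by
  induction k generalizing u with
  | zero => exact hu
  | succ k ih => rw [Function.iterate_succ_apply]; exact ih hu.2

theorem exists_preimage (hw : w ^ 2 = w - 2) {k : ℕ} {c : ℂ} (_hc : c ∈ lev w k) :
    ∃ u, (w - 2) * u - 1 ≠ 0 ∧ g1 w u = c := by
  obtain ⟨r, hr⟩ := IsAlgClosed.exists_pow_nat_eq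
    (((w - 2) * (1 + c)) ^ 2 - 4 * c) (n := 2) (by norm_num)
  have hu : ∃ u : ℂ, u * (u - (w - 2)) = c * ((w - 2) * u - 1) :=
    ⟨((w - 2) * (1 + c) + r) / 2, by linear_combination (1 / 4) * hr⟩
  obtain ⟨u, hu⟩ := hu
  have h0 : (w - 2) * u - 1 ≠ 0 := by
    intro h
    rw [h, mul_zero] at hu
    rcases mul_eq_zero.1 hu with h1 | h1
    · rw [h1] at h; norm_num at h
    · have h2 : u = w - 2 := by linear_combination h1
      rw [h2] at h
      have h3 : (w - 1) * (w - 3) = 0 := by linear_combination h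
      rcases mul_eq_zero.1 h3 with h4 | h4
      · exact a1_ne hw h4
      · exact a3_ne hw h4
  exact ⟨u, h0, by unfold g1; rw [div_eq_iff h0, hu]⟩

theorem exists_exact (hw : w ^ 2 = w - 2) (k : ℕ) : ∃ u ∈ lev w (k + 1), u ∉ lev w k := by
  induction k with
  | zero =>
    refine ⟨w - 2, ⟨?_, ?_⟩, a_ne hw⟩
    · intro h
      have h3 : (w - 1) * (w - 3) = 0 := by linear_combination h
      rcases mul_eq_zero.1 h3 with h4 | h4
      · exact a1_ne hw h4
      · exact a3_ne hw h4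
    · simp [g1, lev]
  | succ k ih =>
    obtain ⟨c, hc, hc'⟩ := ih
    obtain ⟨u, h0, hu⟩ := exists_preimage hw hc
    exact ⟨u, ⟨h0, hu ▸ hc⟩, fun h => hc' (hu ▸ h.2)⟩

theorem lev_finite (k : ℕ) : (lev w k).Finite := by
  induction k with
  | zero => simp [lev]
  | succ k ih =>
    have hsub : lev w (k + 1) ⊆ ⋃ c ∈ lev w k,
        ((Polynomial.X * (Polynomial.X - Polynomial.C (w - 2)) -
          Polynomial.C c * (Polynomial.C (w - 2) * Polynomial.X - 1)).rootSet ℂ) := by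
      intro u hu
      simp only [Set.mem_iUnion]
      refine ⟨g1 w u, hu.2, ?_⟩
      rw [Polynomial.mem_rootSet]
      constructor
      · intro h
        have e0 := congrArg (Polynomial.eval 0) h
        have e1 := congrArg (Polynomial.eval 1) h
        have e2 := congrArg (Polynomial.eval (-1)) h
        simp only [Polynomial.eval_sub, Polynomial.eval_mul, Polynomial.eval_X, Polynomial.eval_C,
          Polynomial.eval_one, Polynomial.eval_zero] at e0 e1 e2
        have : (2 : ℂ) = 0 := by linear_combination e1 + e2 - 2 * e0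
        norm_num at this
      · have h0 := hu.1
        simp only [map_sub, map_mul, Polynomial.aeval_X, Polynomial.aeval_C, map_one,
          Algebra.algebraMap_self, RingHom.id_apply]
        unfold g1
        rw [div_mul_cancel₀ _ h0, sub_self]
    exact (ih.biUnion fun c _ => Polynomial.rootSet_finite _ _).subset hsub

/-- A point of exact level two is the critical point `-w` of the first map. -/
theorem d1_eq_zero (hw : w ^ 2 = w - 2) {u : ℂ} (hu : u ∈ lev w 2) (hu' : u ∉ lev w 1) :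
    d1 w u = 0 := by
  have h0 := hu.1
  have h1 : g1 w u ∈ lev w 1 := hu.2
  have h2 : g1 w u ≠ 0 := fun h => hu' ⟨h0, h⟩
  have h3 : g1 w (g1 w u) = 0 := h1.2
  have h4 : g1 w u = w - 2 := by
    have e1 : g1 w (g1 w u) = g1 w u * (g1 w u - (w - 2)) / ((w - 2) * g1 w u - 1) := rfl
    rw [e1, div_eq_zero_iff] at h3
    rcases h3 with h3 | h3
    · rcases mul_eq_zero.1 h3 with h3 | h3
      · exact absurd h3 h2
      · linear_combination h3
    · exact absurd h3 h1.1
  unfold g1 at h4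
  rw [div_eq_iff h0] at h4
  have h5 : (u + w) ^ 2 = 0 := by linear_combination h4 + (1 + u) * hw
  have h6 : u = -w := by
    have := pow_eq_zero_iff (n := 2) (by norm_num) |>.1 h5
    linear_combination this
  unfold d1
  rw [h6, div_eq_zero_iff]
  left
  linear_combination (w - 1) * hw

theorem d2_ne_zero (hw : w ^ 2 = w - 2) {k : ℕ} {u : ℂ} (hu : u ∈ lev w k) : d2 w u ≠ 0 := by
  have h1 := add_one_ne hw hu
  have h2 := sub_one_ne hw hu
  unfold d2
  refine div_ne_zero (mul_ne_zero (b_ne hw) ?_) (pow_ne_zero _ h1)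
  intro h; apply h2; linear_combination -h

/-- The orbit of a point of level at least two passes through the critical point. -/
theorem exists_crit (hw : w ^ 2 = w - 2) {k : ℕ} {u : ℂ} (hu : u ∈ lev w k) (hu' : u ∉ lev w 1) :
    ∃ j, d1 w ((g1 w)^[j] u) = 0 := by
  induction k generalizing u with
  | zero => exact absurd (lev_succ 0 hu) hu'
  | succ k ih =>
    by_cases h : g1 w u ∈ lev w 1
    · exact ⟨0, d1_eq_zero hw ⟨hu.1, h⟩ hu'⟩
    · obtain ⟨j, hj⟩ := ih hu.2 h
      exact ⟨j + 1, by rw [Function.iterate_succ_apply]; exact hj⟩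

end

end Pool.Agent.Work.MP_0a826e_ag
end

-- merged part: Pool.Agent.Work.MP_0a826e_ag.Geo
section
/-!
The endomorphism of projective three-space extending the product of the two Lattes maps on the
Segre quadric, and its action on tangent lines.
-/

namespace Pool.Agent.Work.MP_0a826e_ag

open MvPolynomial Projectivization
open scoped LinearAlgebra.Projectivization

variable (w : ℂ)

/-- The four quadrics. -/
noncomputable def FF : Fin 4 → MvPolynomial (Fin 4) ℂ :=
  ![C (-1 - w) * (X 0 * (X 1 - C (w - 2) * X 3)),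
    (X 0 + X 1) * ((X 0 + X 1) - C (w - 2) * (X 2 + X 3)),
    C (-1 - w) * (X 3 * (C (w - 2) * X 0 - X 2)),
    (X 2 + X 3) * (C (w - 2) * (X 0 + X 1) - (X 2 + X 3))]

theorem FF_hom (i : Fin 4) : (FF w i).IsHomogeneous 2 := by
  have hX : ∀ j : Fin 4, (X j : MvPolynomial (Fin 4) ℂ).IsHomogeneous 1 :=
    fun j => isHomogeneous_X ℂ j
  fin_cases i
  · exact ((hX 0).mul ((hX 1).sub ((hX 3).C_mul _))).C_mul _
  · exact ((hX 0).add (hX 1)).mul (((hX 0).add (hX 1)).sub (((hX 2).add (hX 3)).C_mul _))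
  · exact ((hX 3).mul (((hX 0).C_mul _).sub (hX 2))).C_mul _
  · exact ((hX 2).add (hX 3)).mul ((((hX 0).add (hX 1)).C_mul _).sub ((hX 2).add (hX 3)))

theorem evalMap_FF (v : Fin 4 → ℂ) : evalMap (FF w) v =
    ![(-1 - w) * (v 0 * (v 1 - (w - 2) * v 3)),
      (v 0 + v 1) * ((v 0 + v 1) - (w - 2) * (v 2 + v 3)),
      (-1 - w) * (v 3 * ((w - 2) * v 0 - v 2)),
      (v 2 + v 3) * ((w - 2) * (v 0 + v 1) - (v 2 + v 3))] := by
  funext i
  fin_cases i <;> simp [evalMap, FF]

theorem jac_FF (v u : Fin 4 → ℂ) : jac (FF w) v u =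
    ![(-1 - w) * (u 0 * (v 1 - (w - 2) * v 3) + v 0 * (u 1 - (w - 2) * u 3)),
      (u 0 + u 1) * ((v 0 + v 1) - (w - 2) * (v 2 + v 3)) +
        (v 0 + v 1) * ((u 0 + u 1) - (w - 2) * (u 2 + u 3)),
      (-1 - w) * (u 3 * ((w - 2) * v 0 - v 2) + v 3 * ((w - 2) * u 0 - u 2)),
      (u 2 + u 3) * ((w - 2) * (v 0 + v 1) - (v 2 + v 3)) +
        (v 2 + v 3) * ((w - 2) * (u 0 + u 1) - (u 2 + u 3))] := by
  funext i
  fin_cases i <;>
    simp [jac, FF, Matrix.mulVec, dotProduct, Fin.sum_univ_four, Derivation.leibniz, pderiv_X,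
      Pi.single_apply] <;> ring

variable {w}

theorem FF_ne (hw : w ^ 2 = w - 2) (v : Fin 4 → ℂ) (hv : v ≠ 0) : evalMap (FF w) v ≠ 0 := by
  intro h
  rw [evalMap_FF] at h
  have h0 := congrFun h 0
  have h1 := congrFun h 1
  have h2 := congrFun h 2
  have h3 := congrFun h 3
  simp only [Matrix.cons_val_zero, Matrix.cons_val_one, Matrix.cons_val, Pi.zero_apply] at h0 h1 h2 h3
  have hb := b_ne hw
  have ha : (w - 1) * (w - 3) ≠ 0 := mul_ne_zero (a1_ne hw) (a3_ne hw)
  have key : ∀ y z : ℂ, y * (y - (w - 2) * z) = 0 → z * ((w - 2) * y - z) = 0 → y = 0 ∧ z = 0 := by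
    intro y z e1 e2
    rcases mul_eq_zero.1 e1 with e1 | e1
    · refine ⟨e1, ?_⟩
      rw [e1] at e2
      have : z ^ 2 = 0 := by linear_combination -e2
      exact pow_eq_zero_iff (n := 2) (by norm_num) |>.1 this
    · have e3 : (w - 1) * (w - 3) * z ^ 2 = 0 := by linear_combination e2 - (w - 2) * z * e1
      have e4 : z = 0 := by
        rcases mul_eq_zero.1 e3 with e3 | e3
        · exact absurd e3 ha
        · exact pow_eq_zero_iff (n := 2) (by norm_num) |>.1 e3
      refine ⟨?_, e4⟩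
      rw [e4] at e1
      linear_combination e1
  obtain ⟨y0, z0⟩ := key _ _ h1 h3
  have e1 : v 1 = -v 0 := by linear_combination y0
  have e3 : v 3 = -v 2 := by linear_combination z0
  have h0' := (mul_eq_zero.1 h0).resolve_left hb
  have h2' := (mul_eq_zero.1 h2).resolve_left hb
  rw [e1, e3] at h0'
  rw [e3] at h2'
  obtain ⟨a0, a2⟩ := key (v 0) (v 2) (by linear_combination -h0') (by linear_combination -h2')
  apply hv
  funext i
  fin_cases i <;> simp [e1, e3, a0, a2]

theorem evalMap_smul (c : ℂ) (v : Fin 4 → ℂ) :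
    evalMap (FF w) (c • v) = (c ^ 2) • evalMap (FF w) v := by
  rw [evalMap_FF, evalMap_FF]
  funext i
  fin_cases i <;> simp <;> ring

theorem jac_smul (c : ℂ) (v : Fin 4 → ℂ) : jac (FF w) (c • v) = c • jac (FF w) v := by
  apply LinearMap.ext
  intro u
  rw [LinearMap.smul_apply, jac_FF, jac_FF]
  funext i
  fin_cases i <;> simp <;> ring

theorem projMap_mk (hw : w ^ 2 = w - 2) (v : Fin 4 → ℂ) (hv : v ≠ 0) :
    projMap (FF w) (FF_ne hw) (mk ℂ v hv) = mk ℂ (evalMap (FF w) v) (FF_ne hw v hv) := by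
  obtain ⟨a, ha⟩ := exists_smul_eq_mk_rep ℂ v hv
  unfold projMap
  rw [mk_eq_mk_iff']
  refine ⟨(a : ℂ) ^ 2, ?_⟩
  rw [← ha, ← evalMap_smul]
  rfl

theorem tangentStep_mk (hw : w ^ 2 = w - 2) (v : Fin 4 → ℂ) (hv : v ≠ 0)
    (W : Submodule ℂ (Fin 4 → ℂ)) :
    tangentStep (FF w) (FF_ne hw) (mk ℂ v hv, W) =
      (mk ℂ (evalMap (FF w) v) (FF_ne hw v hv), W.map (jac (FF w) v)) := by
  obtain ⟨a, ha⟩ := exists_smul_eq_mk_rep ℂ v hv
  unfold tangentStep
  rw [projMap_mk hw]
  congr 1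
  change W.map (jac (FF w) (mk ℂ v hv).rep) = _
  rw [← ha]
  change W.map (jac (FF w) ((a : ℂ) • v)) = _
  rw [jac_smul, Submodule.map_smul _ _ _ a.ne_zero]

/-- The Segre vector. -/
def seg (s0 s1 t0 t1 : ℂ) : Fin 4 → ℂ := ![s0 * t0, s0 * t1, s1 * t0, s1 * t1]

/-- The affine point `(a, b)` of the quadric. -/
def pt (a b : ℂ) : Fin 4 → ℂ := ![a * b, a, b, 1]

/-- The tangent vector `(p, q)` at the affine point `(a, b)`. -/
def dir (a b p q : ℂ) : Fin 4 → ℂ := ![p * b + q * a, p, q, 0]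

theorem pt_ne (a b : ℂ) : pt a b ≠ 0 := by
  intro h
  have := congrFun h 3
  simp [pt] at this

/-- The projective point `(a, b)`. -/
noncomputable def PP (a b : ℂ) : ℙ ℂ (Fin 4 → ℂ) := mk ℂ (pt a b) (pt_ne a b)

/-- The tangent line at `(a, b)` with direction `(p, q)`. -/
noncomputable def WW (a b p q : ℂ) : Submodule ℂ (Fin 4 → ℂ) :=
  Submodule.span ℂ {pt a b, dir a b p q}

theorem evalMap_seg (s0 s1 t0 t1 : ℂ) : evalMap (FF w) (seg s0 s1 t0 t1) =
    seg (s0 * (s0 - (w - 2) * s1)) (s1 * ((w - 2) * s0 - s1)) ((-1 - w) * (t0 * t1))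
      ((t0 + t1) ^ 2) := by
  rw [evalMap_FF]
  funext i
  fin_cases i <;> simp [seg] <;> ring

theorem evalMap_pt {a b : ℂ} (ha : (w - 2) * a - 1 ≠ 0) (hb : b + 1 ≠ 0) :
    evalMap (FF w) (pt a b) = (((w - 2) * a - 1) * (b + 1) ^ 2) • pt (g1 w a) (g2 w b) := by
  rw [evalMap_FF]
  obtain ⟨D, hD⟩ : ∃ D, D = (w - 2) * a - 1 := ⟨_, rfl⟩
  obtain ⟨E, hE⟩ : ∃ E, E = b + 1 := ⟨_, rfl⟩
  unfold g1 g2
  rw [← hD] at ha ⊢
  rw [← hE] at hb ⊢
  funext i
  fin_cases i <;> simp [pt] <;> field_simp <;> subst hD hE <;> ring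

theorem jac_pt (v : Fin 4 → ℂ) : jac (FF w) v v = (2 : ℂ) • evalMap (FF w) v := by
  rw [evalMap_FF, jac_FF]
  funext i
  fin_cases i <;> simp <;> ring

theorem jac_dir {a b : ℂ} (ha : (w - 2) * a - 1 ≠ 0) (hb : b + 1 ≠ 0) (p q : ℂ) :
    jac (FF w) (pt a b) (dir a b p q) =
      (((w - 2) * a - 1) * (b + 1) ^ 2) • dir (g1 w a) (g2 w b) (d1 w a * p) (d2 w b * q) +
      ((w - 2) * p * (b + 1) ^ 2 + ((w - 2) * a - 1) * (2 * (b + 1) * q)) •
        pt (g1 w a) (g2 w b) := by
  rw [jac_FF]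
  obtain ⟨D, hD⟩ : ∃ D, D = (w - 2) * a - 1 := ⟨_, rfl⟩
  obtain ⟨E, hE⟩ : ∃ E, E = b + 1 := ⟨_, rfl⟩
  unfold g1 g2 d1 d2
  rw [← hD] at ha ⊢
  rw [← hE] at hb ⊢
  funext i
  fin_cases i <;> simp [pt, dir] <;> field_simp <;> subst hD hE <;> ring

theorem span_pair_shear {V : Type*} [AddCommGroup V] [Module ℂ V] (x y : V) {c d : ℂ} (e : ℂ)
    (hc : c ≠ 0) (hd : d ≠ 0) :
    Submodule.span ℂ {c • x, d • y + e • x} = Submodule.span ℂ {x, y} := by
  apply le_antisymm
  · rw [Submodule.span_le]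
    rintro z (rfl | rfl)
    · exact Submodule.mem_span_pair.2 ⟨c, 0, by simp⟩
    · exact Submodule.mem_span_pair.2 ⟨e, d, by simp [add_comm]⟩
  · rw [Submodule.span_le]
    rintro z (rfl | rfl)
    · exact Submodule.mem_span_pair.2 ⟨c⁻¹, 0, by simp [smul_smul, hc]⟩
    · refine Submodule.mem_span_pair.2 ⟨-(e * d⁻¹ * c⁻¹), d⁻¹, ?_⟩
      simp only [smul_add, smul_smul]
      have h1 : -(e * d⁻¹ * c⁻¹) * c = -(d⁻¹ * e) := by field_simp
      rw [h1, inv_mul_cancel₀ hd]
      simp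

theorem projMap_PP (hw : w ^ 2 = w - 2) {a b : ℂ} (ha : (w - 2) * a - 1 ≠ 0) (hb : b + 1 ≠ 0) :
    projMap (FF w) (FF_ne hw) (PP a b) = PP (g1 w a) (g2 w b) := by
  unfold PP
  rw [projMap_mk hw, mk_eq_mk_iff']
  exact ⟨_, (evalMap_pt ha hb).symm⟩

theorem tangentStep_PP (hw : w ^ 2 = w - 2) {a b : ℂ} (ha : (w - 2) * a - 1 ≠ 0) (hb : b + 1 ≠ 0)
    (p q : ℂ) :
    tangentStep (FF w) (FF_ne hw) (PP a b, WW a b p q) =
      (PP (g1 w a) (g2 w b), WW (g1 w a) (g2 w b) (d1 w a * p) (d2 w b * q)) := by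
  have h1 := projMap_PP hw ha hb
  unfold PP at h1 ⊢
  rw [tangentStep_mk hw, ← projMap_mk hw _ (pt_ne a b), h1]
  congr 1
  unfold WW
  have hD : ((w - 2) * a - 1) * (b + 1) ^ 2 ≠ 0 := mul_ne_zero ha (pow_ne_zero _ hb)
  rw [Submodule.map_span, Set.image_pair, jac_pt, evalMap_pt ha hb, jac_dir ha hb, smul_smul]
  exact span_pair_shear _ _ _ (mul_ne_zero two_ne_zero hD) hD

theorem finrank_WW (a b p : ℂ) {q : ℂ} (hq : q ≠ 0) : Module.finrank ℂ (WW a b p q) = 2 := by
  have hli : LinearIndependent ℂ ![pt a b, dir a b p q] := by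
    rw [LinearIndependent.pair_iff]
    intro s t h
    have h3 := congrFun h 3
    have h2 := congrFun h 2
    simp [pt, dir] at h3 h2
    rw [h3] at h2
    simp [hq] at h2
    exact ⟨h3, h2⟩
  have := finrank_span_eq_card hli
  rw [Matrix.range_cons_cons_empty] at this
  exact this

theorem PP_le_WW (a b p q : ℂ) : (PP a b).submodule ≤ WW a b p q := by
  unfold PP WW
  rw [submodule_mk]
  exact Submodule.span_mono (by simp)

theorem WW_zero (a b : ℂ) {q : ℂ} (hq : q ≠ 0) : WW a b 0 q = WW a b 0 1 := by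
  unfold WW
  have h : dir a b 0 q = q • dir a b 0 1 + (0 : ℂ) • pt a b := by
    funext i
    fin_cases i <;> simp [dir]
  rw [h, ← span_pair_shear (pt a b) (dir a b 0 1) 0 one_ne_zero hq, one_smul]

theorem PP_inj {a b a' b' : ℂ} (h : PP a b = PP a' b') : a = a' ∧ b = b' := by
  unfold PP at h
  rw [mk_eq_mk_iff'] at h
  obtain ⟨c, hc⟩ := h
  have h1 := congrFun hc 1
  have h2 := congrFun hc 2
  have h3 := congrFun hc 3
  simp [pt] at h1 h2 h3
  rw [h3] at h1 h2
  exact ⟨by simpa using h1.symm, by simpa using h2.symm⟩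

end Pool.Agent.Work.MP_0a826e_ag
end

-- merged part: Pool.Agent.Work.MP_0a826e_ag.Conic
section
/-!
The conic `x_1 = x_2`, `x_0 x_3 = x_1 x_2` (the diagonal of the Segre quadric).
-/

namespace Pool.Agent.Work.MP_0a826e_ag

open MvPolynomial Projectivization
open scoped LinearAlgebra.Projectivization

/-- The conic. -/
def YY : Set (ℙ ℂ (Fin 4 → ℂ)) := {p | p.rep 1 = p.rep 2 ∧ p.rep 0 * p.rep 3 = p.rep 1 * p.rep 2}

theorem mk_mem_YY {v : Fin 4 → ℂ} (hv : v ≠ 0) :
    mk ℂ v hv ∈ YY ↔ v 1 = v 2 ∧ v 0 * v 3 = v 1 * v 2 := by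
  obtain ⟨a, ha⟩ := exists_smul_eq_mk_rep ℂ v hv
  have ha0 : (a : ℂ) ≠ 0 := a.ne_zero
  unfold YY
  rw [Set.mem_ofPred_eq, ← ha]
  simp only [Units.smul_def, Pi.smul_apply, smul_eq_mul]
  constructor
  · rintro ⟨h1, h2⟩
    refine ⟨mul_left_cancel₀ ha0 h1, mul_left_cancel₀ (mul_ne_zero ha0 ha0) ?_⟩
    linear_combination h2
  · rintro ⟨h1, h2⟩
    exact ⟨by rw [h1], by linear_combination (a : ℂ) ^ 2 * h2⟩

theorem exists_seg {v : Fin 4 → ℂ} (h1 : v 1 = v 2) (h2 : v 0 * v 3 = v 1 * v 2) :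
    ∃ s0 s1, v = seg s0 s1 s0 s1 := by
  by_cases h0 : v 0 = 0
  · obtain ⟨r, hr⟩ := IsAlgClosed.exists_pow_nat_eq (v 3) (n := 2) (by norm_num)
    have h3 : v 2 = 0 := by
      rw [h0, h1, zero_mul] at h2
      exact mul_self_eq_zero.1 h2.symm
    refine ⟨0, r, ?_⟩
    funext i
    fin_cases i <;> simp [seg, h0, h1, h3, ← hr, sq]
  · obtain ⟨r, hr⟩ := IsAlgClosed.exists_pow_nat_eq (v 0) (n := 2) (by norm_num)
    have hr0 : r ≠ 0 := by rintro rfl; apply h0; rw [← hr]; simp
    refine ⟨r, v 1 / r, ?_⟩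
    funext i
    fin_cases i
    · simp [seg, ← hr, sq]
    · simp [seg]; field_simp
    · simp [seg, h1, hr0]
    · simp [seg]; field_simp; rw [hr]; linear_combination h2 - v 1 * h1

theorem cone_YY : {v : Fin 4 → ℂ | ∃ p ∈ YY, v ∈ p.submodule} =
    {v | ∃ s0 s1, v = seg s0 s1 s0 s1} := by
  ext v
  constructor
  · rintro ⟨p, ⟨h1, h2⟩, hv⟩
    rw [submodule_eq, Submodule.mem_span_singleton] at hv
    obtain ⟨c, rfl⟩ := hv
    apply exists_seg
    · simp [h1]
    · simp only [Pi.smul_apply, smul_eq_mul]; linear_combination c ^ 2 * h2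
  · rintro ⟨s0, s1, rfl⟩
    by_cases hv : seg s0 s1 s0 s1 = 0
    · refine ⟨PP 0 0, (mk_mem_YY _).2 (by simp [pt]), ?_⟩
      rw [hv]; exact zero_mem _
    · refine ⟨mk ℂ _ hv, (mk_mem_YY _).2 ?_, ?_⟩
      · simp [seg]; constructor <;> ring
      · rw [submodule_mk]; exact Submodule.mem_span_singleton_self _

theorem mem_idealOf_YY {g : MvPolynomial (Fin 4) ℂ} :
    g ∈ idealOf YY ↔ ∀ s0 s1, eval (seg s0 s1 s0 s1) g = 0 := by
  unfold idealOf
  rw [cone_YY, mem_vanishingIdeal_iff]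
  constructor
  · intro h s0 s1; exact h _ ⟨s0, s1, rfl⟩
  · rintro h v ⟨s0, s1, rfl⟩; exact h s0 s1

theorem lin_mem : (X 1 - X 2 : MvPolynomial (Fin 4) ℂ) ∈ idealOf YY := by
  rw [mem_idealOf_YY]; intro s0 s1; simp [seg]; ring

theorem quad_mem : (X 0 * X 3 - X 1 * X 2 : MvPolynomial (Fin 4) ℂ) ∈ idealOf YY := by
  rw [mem_idealOf_YY]; intro s0 s1; simp [seg]; ring

theorem YY_closed (p : ℙ ℂ (Fin 4 → ℂ)) (h : ∀ g ∈ idealOf YY, eval p.rep g = 0) : p ∈ YY := by
  have h1 := h _ lin_mem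
  have h2 := h _ quad_mem
  simp only [map_sub, map_mul, eval_X] at h1 h2
  exact ⟨by linear_combination h1, by linear_combination h2⟩

theorem eval_aeval {n m : ℕ} (γ : Fin n → MvPolynomial (Fin m) ℂ) (x : Fin m → ℂ)
    (g : MvPolynomial (Fin n) ℂ) : eval x (aeval γ g) = eval (fun i => eval x (γ i)) g := by
  induction g using MvPolynomial.induction_on with
  | C a => simp
  | add p q hp hq => simp only [map_add, hp, hq]
  | mul_X p i hp => simp only [map_mul, hp, aeval_X, eval_X]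

theorem prime_range {n : ℕ} (γ : Fin n → MvPolynomial (Fin n) ℂ) :
    (vanishingIdeal ℂ (Set.range (evalMap γ))).IsPrime := by
  have : vanishingIdeal ℂ (Set.range (evalMap γ)) =
      RingHom.ker (aeval γ : MvPolynomial (Fin n) ℂ →ₐ[ℂ] MvPolynomial (Fin n) ℂ) := by
    ext g
    rw [mem_vanishingIdeal_iff, RingHom.mem_ker]
    constructor
    · intro h
      apply MvPolynomial.funext
      intro x
      rw [eval_aeval, map_zero]
      exact h _ ⟨x, rfl⟩
    · rintro h _ ⟨x, rfl⟩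
      have := eval_aeval γ x g
      rw [h, map_zero] at this
      exact this.symm
  rw [this]
  exact RingHom.ker_isPrime _

theorem dim_of_chain {R : Type*} [CommRing R] (hR : ringKrullDim R = 4)
    (p0 p1 p2 p3 p4 : PrimeSpectrum R) (h01 : p0 < p1) (h12 : p1 < p2) (h23 : p2 < p3)
    (h34 : p3 < p4) : ringKrullDim (R ⧸ p2.asIdeal) = ((1 + 1 : ℕ) : WithBot ℕ∞) := by
  rw [ringKrullDim_quotient]
  have hz : PrimeSpectrum.zeroLocus (R := R) p2.asIdeal = Set.Ici p2 := by
    ext q; rfl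
  rw [hz, ← Order.coheight_eq_krullDim_Ici]
  have e0 := Order.coheight_le_krullDim p0
  change _ ≤ ringKrullDim R at e0
  rw [hR] at e0
  have e0' : Order.coheight p0 ≤ 4 := WithBot.coe_le_coe.1 e0
  have e1 := Order.coheight_add_one_le h01
  have e2 := Order.coheight_add_one_le h12
  have e3 := Order.coheight_add_one_le h23
  have e4 := Order.coheight_add_one_le h34
  have hup : Order.coheight p2 + 2 ≤ 2 + 2 := by
    calc Order.coheight p2 + 2 = Order.coheight p2 + 1 + 1 := by rw [add_assoc]; rfl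
      _ ≤ Order.coheight p1 + 1 := by gcongr
      _ ≤ Order.coheight p0 := e1
      _ ≤ 4 := e0'
      _ = 2 + 2 := by norm_num
  have hup' : Order.coheight p2 ≤ 2 := (ENat.add_le_add_iff_right (by simp)).1 hup
  have hlo : 2 ≤ Order.coheight p2 := by
    calc (2 : ℕ∞) = 0 + 1 + 1 := by norm_num
      _ ≤ Order.coheight p4 + 1 + 1 := by gcongr; exact zero_le
      _ ≤ Order.coheight p3 + 1 := by gcongr
      _ ≤ Order.coheight p2 := e3
  rw [le_antisymm hup' hlo]
  rfl

/-- Parametrisation of the cone over the conic. -/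
noncomputable def gam2 : Fin 4 → MvPolynomial (Fin 4) ℂ :=
  ![X 0 * X 0, X 0 * X 1, X 1 * X 0, X 1 * X 1]

theorem idealOf_YY_eq : idealOf YY = vanishingIdeal ℂ (Set.range (evalMap gam2)) := by
  unfold idealOf
  rw [cone_YY]
  congr 1
  ext v
  constructor
  · rintro ⟨s0, s1, rfl⟩
    refine ⟨![s0, s1, 0, 0], ?_⟩
    funext i
    fin_cases i <;> simp [evalMap, gam2, seg]
  · rintro ⟨x, rfl⟩
    refine ⟨x 0, x 1, ?_⟩
    funext i
    fin_cases i <;> simp [evalMap, gam2, seg]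

theorem lt_of_witness {n : ℕ} (γ δ : Fin n → MvPolynomial (Fin n) ℂ)
    (h : ∀ x, ∃ y, evalMap γ y = evalMap δ x) (g : MvPolynomial (Fin n) ℂ)
    (h1 : ∀ x, eval (evalMap δ x) g = 0) (y : Fin n → ℂ) (h2 : eval (evalMap γ y) g ≠ 0) :
    (⟨_, prime_range γ⟩ : PrimeSpectrum (MvPolynomial (Fin n) ℂ)) < ⟨_, prime_range δ⟩ := by
  apply lt_of_le_of_ne
  · apply vanishingIdeal_anti_mono
    rintro _ ⟨x, rfl⟩
    exact h x
  · intro e
    have e' : vanishingIdeal ℂ (Set.range (evalMap γ)) = vanishingIdeal ℂ (Set.range (evalMap δ)) :=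
      congrArg PrimeSpectrum.asIdeal e
    have hg : g ∈ vanishingIdeal ℂ (Set.range (evalMap δ)) := by
      rintro _ ⟨x, rfl⟩
      exact h1 x
    rw [← e'] at hg
    exact h2 (hg _ ⟨y, rfl⟩)

theorem YY_subvariety : IsSubvariety YY 1 := by
  refine ⟨YY_closed, idealOf_YY_eq ▸ prime_range _, ?_⟩
  rw [idealOf_YY_eq]
  have hR : ringKrullDim (MvPolynomial (Fin 4) ℂ) = 4 := by simp
  refine dim_of_chain hR ⟨_, prime_range ![X 0, X 1, X 2, X 3]⟩
    ⟨_, prime_range ![X 0, X 1, X 1, X 3]⟩ ⟨_, prime_range gam2⟩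
    ⟨_, prime_range ![X 0 * X 0, 0, 0, 0]⟩ ⟨_, prime_range ![0, 0, 0, 0]⟩ ?_ ?_ ?_ ?_
  · refine lt_of_witness _ _ (fun x => ⟨![x 0, x 1, x 1, x 3], ?_⟩) (X 1 - X 2) (fun x => ?_)
      ![0, 1, 0, 0] ?_
    · funext i; fin_cases i <;> simp [evalMap]
    · simp [evalMap]
    · simp [evalMap]
  · refine lt_of_witness _ _ (fun x => ⟨![x 0 * x 0, x 0 * x 1, 0, x 1 * x 1], ?_⟩)
      (X 0 * X 3 - X 1 * X 2) (fun x => ?_) ![1, 0, 0, 1] ?_
    · funext i; fin_cases i <;> simp [evalMap, gam2, mul_comm]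
    · simp [evalMap, gam2]; ring
    · simp [evalMap]
  · refine lt_of_witness _ _ (fun x => ⟨![x 0, 0, 0, 0], ?_⟩) (X 1) (fun x => ?_)
      ![1, 1, 0, 0] ?_
    · funext i; fin_cases i <;> simp [evalMap, gam2]
    · simp [evalMap]
    · simp [evalMap, gam2]
  · refine lt_of_witness _ _ (fun x => ⟨0, ?_⟩) (X 0) (fun x => ?_) ![1, 0, 0, 0] ?_
    · funext i; fin_cases i <;> simp [evalMap]
    · simp [evalMap]
    · simp [evalMap]

/-- Chain rule for a polynomial along a polynomial curve. -/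
theorem deriv_aeval {n : ℕ} (γ : Fin n → Polynomial ℂ) (g : MvPolynomial (Fin n) ℂ) :
    Polynomial.derivative (aeval γ g) =
      ∑ j, aeval γ (pderiv j g) * Polynomial.derivative (γ j) := by
  induction g using MvPolynomial.induction_on with
  | C a => simp
  | add p q hp hq => simp [hp, hq, add_mul, Finset.sum_add_distrib]
  | mul_X p i hp =>
    have e1 : ∑ j, aeval γ p * aeval γ (pderiv j (X i : MvPolynomial (Fin n) ℂ)) *
        Polynomial.derivative (γ j) = aeval γ p * Polynomial.derivative (γ i) := by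
      rw [Finset.sum_eq_single i]
      · simp
      · intro j _ hj; simp [pderiv_X, hj.symm]
      · simp
    rw [map_mul, aeval_X, Polynomial.derivative_mul, hp, ← e1, Finset.sum_mul,
      ← Finset.sum_add_distrib]
    refine Finset.sum_congr rfl fun j _ => ?_
    rw [Derivation.leibniz, smul_eq_mul, smul_eq_mul, map_add, map_mul, map_mul, aeval_X]
    ring

theorem polyeval_aeval {n : ℕ} (γ : Fin n → Polynomial ℂ) (t : ℂ) (g : MvPolynomial (Fin n) ℂ) :
    Polynomial.eval t (aeval γ g) = eval (fun i => Polynomial.eval t (γ i)) g := by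
  induction g using MvPolynomial.induction_on with
  | C a => simp
  | add p q hp hq => simp [hp, hq]
  | mul_X p i hp => simp [hp]

theorem tangent_of_curve {n : ℕ} (γ : Fin n → Polynomial ℂ) (g : MvPolynomial (Fin n) ℂ)
    (h : ∀ t, eval (fun i => Polynomial.eval t (γ i)) g = 0) :
    ∑ j, eval (fun i => Polynomial.eval 0 (γ i)) (pderiv j g) *
      Polynomial.eval 0 (Polynomial.derivative (γ j)) = 0 := by
  have h0 : aeval γ g = 0 := by
    apply Polynomial.funext
    intro t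
    rw [polyeval_aeval, h, Polynomial.eval_zero]
  have h1 := congrArg (Polynomial.eval 0) (deriv_aeval γ g)
  rw [h0, Polynomial.derivative_zero, Polynomial.eval_zero, Polynomial.eval_finsetSum] at h1
  simp only [Polynomial.eval_mul, polyeval_aeval] at h1
  exact h1.symm

theorem mem_tangentSpace {n : ℕ} {Y : Set (ℙ ℂ (Fin n → ℂ))} {p : ℙ ℂ (Fin n → ℂ)}
    {u : Fin n → ℂ} :
    u ∈ tangentSpace Y p ↔ ∀ g ∈ idealOf Y, ∑ j, eval p.rep (pderiv j g) * u j = 0 := by
  unfold tangentSpace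
  simp [Submodule.mem_iInf, LinearMap.mem_ker, LinearMap.sum_apply]

theorem eval_of_mem_cone {g : MvPolynomial (Fin 4) ℂ} (hg : g ∈ idealOf YY) {v : Fin 4 → ℂ}
    (h1 : v 1 = v 2) (h2 : v 0 * v 3 = v 1 * v 2) : eval v g = 0 := by
  obtain ⟨s0, s1, rfl⟩ := exists_seg h1 h2
  exact mem_idealOf_YY.1 hg s0 s1

theorem tangentSpace_PP (u : ℂ) : tangentSpace YY (PP u u) = WW u u 1 1 := by
  obtain ⟨a, ha⟩ := exists_smul_eq_mk_rep ℂ (pt u u) (pt_ne u u)
  have ha0 : (a : ℂ) ≠ 0 := a.ne_zero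
  have hrep : (PP u u).rep = (a : ℂ) • pt u u := ha.symm
  apply le_antisymm
  · intro z hz
    rw [mem_tangentSpace] at hz
    have h1 := hz _ lin_mem
    have h2 := hz _ quad_mem
    rw [hrep] at h1 h2
    simp [Fin.sum_univ_four, Derivation.leibniz, pderiv_X, Pi.single_apply, pt] at h1 h2
    have h3 : z 0 + u * u * z 3 - u * z 1 - u * z 2 = 0 := by
      apply mul_left_cancel₀ ha0
      linear_combination h2
    refine Submodule.mem_span_pair.2 ⟨z 3, z 1 - u * z 3, ?_⟩
    funext i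
    fin_cases i <;> simp [pt, dir]
    · linear_combination -h3 + u * h1
    · ring
    · linear_combination h1
  · unfold WW
    rw [Submodule.span_le]
    rintro z (rfl | rfl)
    · rw [SetLike.mem_coe, mem_tangentSpace]
      intro g hg
      have := tangent_of_curve
        (fun i => Polynomial.C (pt u u i) * (Polynomial.C (a : ℂ) + Polynomial.X)) g (fun t => by
          apply eval_of_mem_cone hg <;> simp [pt]
          ring)
      rw [hrep]
      have e : (fun i => Polynomial.eval 0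
          (Polynomial.C (pt u u i) * (Polynomial.C (a : ℂ) + Polynomial.X))) = (a : ℂ) • pt u u := by
        funext i; simp [mul_comm]
      rw [e] at this
      simpa using this
    · rw [SetLike.mem_coe, mem_tangentSpace]
      intro g hg
      have := tangent_of_curve
        ![Polynomial.C (a : ℂ) * ((Polynomial.C u + Polynomial.X) * (Polynomial.C u + Polynomial.X)),
          Polynomial.C (a : ℂ) * (Polynomial.C u + Polynomial.X),
          Polynomial.C (a : ℂ) * (Polynomial.C u + Polynomial.X), Polynomial.C (a : ℂ)] g (fun t => by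
          apply eval_of_mem_cone hg <;> simp
          ring)
      rw [hrep]
      have e : (fun i => Polynomial.eval 0 (![Polynomial.C (a : ℂ) *
          ((Polynomial.C u + Polynomial.X) * (Polynomial.C u + Polynomial.X)),
          Polynomial.C (a : ℂ) * (Polynomial.C u + Polynomial.X),
          Polynomial.C (a : ℂ) * (Polynomial.C u + Polynomial.X), Polynomial.C (a : ℂ)] i)) =
          (a : ℂ) • pt u u := by
        funext i; fin_cases i <;> simp [pt]
      rw [e] at this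
      simp [Fin.sum_univ_four, dir] at this ⊢
      apply mul_left_cancel₀ ha0
      linear_combination this

/-- An infinite set of affine points of the conic is Zariski dense in it. -/
theorem dense_of_infinite {U : Set ℂ} (hU : U.Infinite) :
    idealOf ((fun u => PP u u) '' U) = idealOf YY := by
  apply le_antisymm
  · intro g hg
    have h1 : ∀ c u : ℂ, eval (c • pt u u) g = 0 := by
      intro c u
      let γ : Fin 4 → Polynomial ℂ := ![Polynomial.C c * (Polynomial.X * Polynomial.X),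
        Polynomial.C c * Polynomial.X, Polynomial.C c * Polynomial.X, Polynomial.C c]
      have hγ : ∀ t, (fun i => Polynomial.eval t (γ i)) = c • pt t t := by
        intro t; funext i; fin_cases i <;> simp [γ, pt]
      have h0 : aeval γ g = 0 := by
        apply Polynomial.eq_zero_of_infinite_isRoot
        apply hU.mono
        intro t ht
        change Polynomial.eval t (aeval γ g) = 0
        rw [polyeval_aeval, hγ]
        apply hg
        refine ⟨PP t t, ⟨t, ht, rfl⟩, ?_⟩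
        unfold PP
        rw [submodule_mk]
        exact Submodule.smul_mem _ _ (Submodule.mem_span_singleton_self _)
      rw [← hγ, ← polyeval_aeval, h0, Polynomial.eval_zero]
    rw [mem_idealOf_YY]
    intro s0 s1
    let γ : Fin 4 → Polynomial ℂ := ![Polynomial.C (s0 * s0),
        Polynomial.C s0 * Polynomial.X, Polynomial.X * Polynomial.C s0, Polynomial.X * Polynomial.X]
    have hγ : ∀ t, (fun i => Polynomial.eval t (γ i)) = seg s0 t s0 t := by
      intro t; funext i; fin_cases i <;> simp [γ, seg]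
      exact mul_comm _ _
    have h0 : aeval γ g = 0 := by
      apply Polynomial.eq_zero_of_infinite_isRoot
      apply (Set.finite_singleton (0 : ℂ)).infinite_compl.mono
      intro t ht
      have ht0 : t ≠ 0 := ht
      change Polynomial.eval t (aeval γ g) = 0
      rw [polyeval_aeval, hγ, ← h1 (t * t) (s0 / t)]
      congr 2
      funext i
      fin_cases i <;> simp [seg, pt] <;> field_simp
    rw [← hγ, ← polyeval_aeval, h0, Polynomial.eval_zero]
  · apply vanishingIdeal_anti_mono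
    rintro v ⟨_, ⟨u, _, rfl⟩, hv⟩
    exact ⟨PP u u, (mk_mem_YY _).2 (by simp [pt]), hv⟩

end Pool.Agent.Work.MP_0a826e_ag
end

-- merged part: Pool.Agent.Work.MP_0a826e_ag.Main
section
/-!
The conic is not preperiodic, but carries infinitely many preperiodic points whose tangent lines
are preperiodic.
-/

namespace Pool.Agent.Work.MP_0a826e_ag

open MvPolynomial Projectivization
open scoped LinearAlgebra.Projectivization

variable {w : ℂ}

theorem iter_PP (hw : w ^ 2 = w - 2) {k : ℕ} {a b : ℂ} (ha : a ∈ lev w k) (hb : b ∈ lev w k)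
    (m : ℕ) : (projMap (FF w) (FF_ne hw))^[m] (PP a b) = PP ((g1 w)^[m] a) ((g2 w)^[m] b) := by
  induction m with
  | zero => rfl
  | succ m ih =>
    rw [Function.iterate_succ_apply', ih, Function.iterate_succ_apply',
      Function.iterate_succ_apply',
      projMap_PP hw (den_ne (iter_g1_mem ha m)) (add_one_ne hw (iter_g2_mem hw hb m))]

theorem iter_tangent (hw : w ^ 2 = w - 2) {k : ℕ} {a b : ℂ} (ha : a ∈ lev w k) (hb : b ∈ lev w k)
    (m : ℕ) : (tangentStep (FF w) (FF_ne hw))^[m] (PP a b, WW a b 1 1) =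
      (PP ((g1 w)^[m] a) ((g2 w)^[m] b), WW ((g1 w)^[m] a) ((g2 w)^[m] b)
        (∏ j ∈ Finset.range m, d1 w ((g1 w)^[j] a))
        (∏ j ∈ Finset.range m, d2 w ((g2 w)^[j] b))) := by
  induction m with
  | zero => simp
  | succ m ih =>
    rw [Function.iterate_succ_apply', ih, Function.iterate_succ_apply',
      Function.iterate_succ_apply', Finset.prod_range_succ, Finset.prod_range_succ,
      tangentStep_PP hw (den_ne (iter_g1_mem ha m)) (add_one_ne hw (iter_g2_mem hw hb m)),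
      mul_comm (d1 w _), mul_comm (d2 w _)]

theorem prod_d2_ne (hw : w ^ 2 = w - 2) {k : ℕ} {b : ℂ} (hb : b ∈ lev w k) (m : ℕ) :
    ∏ j ∈ Finset.range m, d2 w ((g2 w)^[j] b) ≠ 0 :=
  Finset.prod_ne_zero_iff.2 fun j _ => d2_ne_zero hw (iter_g2_mem hw hb j)

theorem tangent_orbit_finite (hw : w ^ 2 = w - 2) {k : ℕ} {u : ℂ} (hu : u ∈ lev w k)
    (hu' : u ∉ lev w 1) :
    (Set.range fun m => (tangentStep (FF w) (FF_ne hw))^[m] (PP u u, WW u u 1 1)).Finite := by
  obtain ⟨j, hj⟩ := exists_crit hw hu hu'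
  have hfin1 : ((fun m => (tangentStep (FF w) (FF_ne hw))^[m] (PP u u, WW u u 1 1)) ''
      Set.Iic j).Finite := (Set.finite_Iic j).image _
  have hfin2 : ((fun x : ℂ × ℂ => (PP x.1 x.2, WW x.1 x.2 0 1)) ''
      (lev w k ×ˢ lev w k)).Finite := ((lev_finite k).prod (lev_finite k)).image _
  refine (hfin1.union hfin2).subset ?_
  rintro _ ⟨m, rfl⟩
  by_cases hm : m ≤ j
  · exact Or.inl ⟨m, hm, rfl⟩
  · right
    refine ⟨((g1 w)^[m] u, (g2 w)^[m] u), ⟨iter_g1_mem hu m, iter_g2_mem hw hu m⟩, ?_⟩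
    have h0 : ∏ j ∈ Finset.range m, d1 w ((g1 w)^[j] u) = 0 :=
      Finset.prod_eq_zero (Finset.mem_range.2 (not_le.1 hm)) hj
    simp only
    rw [iter_tangent hw hu hu, h0, WW_zero _ _ (prod_d2_ne hw hu m)]

theorem orbit_finite (hw : w ^ 2 = w - 2) {k : ℕ} {u : ℂ} (hu : u ∈ lev w k) :
    (Set.range fun m => (projMap (FF w) (FF_ne hw))^[m] (PP u u)).Finite := by
  have hfin2 : ((fun x : ℂ × ℂ => PP x.1 x.2) '' (lev w k ×ˢ lev w k)).Finite :=
    ((lev_finite k).prod (lev_finite k)).image _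
  refine hfin2.subset ?_
  rintro _ ⟨m, rfl⟩
  exact ⟨((g1 w)^[m] u, (g2 w)^[m] u), ⟨iter_g1_mem hu m, iter_g2_mem hw hu m⟩,
    (iter_PP hw hu hu m).symm⟩

theorem good_infinite (hw : w ^ 2 = w - 2) : {u | (∃ k, u ∈ lev w k) ∧ u ∉ lev w 1}.Infinite := by
  choose c hc hc' using exists_exact hw
  refine Set.infinite_of_injective_forall_mem (f := fun k => c (k + 1)) ?_ ?_
  · intro k l hkl
    by_contra hne
    simp only at hkl
    rcases lt_or_gt_of_ne hne with h | h
    · exact hc' (l + 1) (hkl ▸ lev_mono (by omega) (hc (k + 1)))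
    · exact hc' (k + 1) (hkl ▸ lev_mono (by omega) (hc (l + 1)))
  · intro k
    exact ⟨⟨_, hc _⟩, fun h => hc' (k + 1) (lev_mono (by omega) h)⟩

/-- Backward step: the first coordinate of a preimage has a finite level. -/
theorem back (hw : w ^ 2 = w - 2) (m : ℕ) {k : ℕ} {a b : ℂ} (ha : a ∈ lev w k) :
    ∀ (s0 s1 t0 t1 : ℂ) (hv : seg s0 s1 t0 t1 ≠ 0),
      (projMap (FF w) (FF_ne hw))^[m] (mk ℂ _ hv) = PP a b → s1 ≠ 0 ∧ s0 / s1 ∈ lev w (k + m) := by
  induction m with
  | zero =>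
    intro s0 s1 t0 t1 hv h
    unfold PP at h
    rw [Function.iterate_zero_apply, mk_eq_mk_iff'] at h
    obtain ⟨c, hc⟩ := h
    have h1 := congrFun hc 1
    have h3 := congrFun hc 3
    simp [pt, seg] at h1 h3
    have hc0 : c ≠ 0 := by
      rintro rfl
      rw [zero_smul] at hc
      exact hv hc.symm
    have hs : s1 ≠ 0 := by rintro rfl; apply hc0; simpa using h3
    have ht : t1 ≠ 0 := by rintro rfl; apply hc0; simpa using h3
    refine ⟨hs, ?_⟩
    have : s0 / s1 = a := by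
      rw [div_eq_iff hs]
      apply mul_right_cancel₀ ht
      linear_combination a * h3 - h1
    rw [this]; exact ha
  | succ m ih =>
    intro s0 s1 t0 t1 hv h
    rw [Function.iterate_succ_apply, projMap_mk hw] at h
    have hv' := FF_ne hw _ hv
    have e := evalMap_seg (w := w) s0 s1 t0 t1
    have h' : (projMap (FF w) (FF_ne hw))^[m] (mk ℂ _ (e ▸ hv')) = PP a b := by
      rw [← h]; congr 2; exact e.symm
    obtain ⟨h1, h2⟩ := ih _ _ _ _ _ h'
    have hs : s1 ≠ 0 := left_ne_zero_of_mul h1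
    have hd : (w - 2) * s0 - s1 ≠ 0 := right_ne_zero_of_mul h1
    have hd' : (w - 2) * (s0 / s1) - 1 = ((w - 2) * s0 - s1) / s1 := by field_simp
    refine ⟨hs, ?_, ?_⟩
    · rw [hd']; exact div_ne_zero hd hs
    · have : g1 w (s0 / s1) = s0 * (s0 - (w - 2) * s1) / (s1 * ((w - 2) * s0 - s1)) := by
        unfold g1
        rw [hd']
        field_simp
      rw [this]; exact h2

theorem not_preperiodic (hw : w ^ 2 = w - 2) (m l : ℕ) (hl : 1 ≤ l) :
    (projMap (FF w) (FF_ne hw))^[m + l] '' YY ≠ (projMap (FF w) (FF_ne hw))^[m] '' YY := by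
  intro h
  obtain ⟨j, rfl⟩ : ∃ j, l = j + 1 := ⟨l - 1, by omega⟩
  obtain ⟨u, hu, hu'⟩ := exists_exact hw (m + j)
  have hmem : (projMap (FF w) (FF_ne hw))^[m + (j + 1)] (PP u u) ∈
      (projMap (FF w) (FF_ne hw))^[m] '' YY := by
    rw [← h]
    exact ⟨PP u u, (mk_mem_YY _).2 (by simp [pt]), rfl⟩
  obtain ⟨q, hq, hq'⟩ := hmem
  rw [iter_PP hw hu hu, ← add_assoc, iter_g1_eq_zero hu] at hq'
  obtain ⟨s0, s1, hs⟩ := exists_seg hq.1 hq.2
  have hv : seg s0 s1 s0 s1 ≠ 0 := hs ▸ q.rep_nonzero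
  have hq2 : q = mk ℂ _ hv := by
    rw [← mk_rep q]; congr 1
  rw [hq2] at hq'
  obtain ⟨h1, h2⟩ := back hw m (zero_mem_lev 0) _ _ _ _ hv hq'
  have hq3 : mk ℂ _ hv = PP (s0 / s1) (s0 / s1) := by
    unfold PP
    rw [mk_eq_mk_iff']
    refine ⟨s1 * s1, ?_⟩
    funext i
    fin_cases i <;> simp [pt, seg] <;> field_simp
  rw [hq3, iter_PP hw h2 h2] at hq'
  have h3 := (PP_inj hq').2
  have h4 := iter_g2_mem hw h2 m
  rw [h3] at h4
  exact hu' (lev_mono (by omega) (mem_of_iter_g2_mem hw hu _ h4))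

theorem exists_w : ∃ w : ℂ, w ^ 2 = w - 2 := by
  obtain ⟨r, hr⟩ := IsAlgClosed.exists_pow_nat_eq (-7 : ℂ) (n := 2) (by norm_num)
  exact ⟨(1 + r) / 2, by linear_combination (1 / 4) * hr⟩

end Pool.Agent.Work.MP_0a826e_ag
end

-- merged part: Pool.Agent.Work.MP_0a826e_ag.Local
section
/-!
A rational curve `t ↦ (P/Q, R/S)` is locally isomorphic to its image at a parameter that is the
only preimage of its image and at which the curve is immersed (Nakayama's lemma).
-/

namespace Pool.Agent.Work.MP_0a826e_ag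

open Polynomial

theorem local_iso (P Q R S α β : ℂ[X]) (hP : P.Monic) (hQ : Q.degree < P.degree) (u a b : ℂ)
    (h : X - C u = α * (P - C a * Q) + β * (R - C b * S)) :
    ∃ r : MvPolynomial (Fin 2) ℂ, MvPolynomial.eval ![a, b] r = 1 ∧ ∀ e : ℂ[X],
      ∃ φ : MvPolynomial (Fin 2) ℂ, ∀ t, Q.eval t ≠ 0 → S.eval t ≠ 0 →
        MvPolynomial.eval ![P.eval t / Q.eval t, R.eval t / S.eval t] φ =
          MvPolynomial.eval ![P.eval t / Q.eval t, R.eval t / S.eval t] r * e.eval t := by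
  let U := {t : ℂ // Q.eval t ≠ 0 ∧ S.eval t ≠ 0}
  let A := MvPolynomial (Fin 2) ℂ
  let ψ : A →+* (U → ℂ) := RingHom.pi fun t : U =>
    MvPolynomial.eval ![P.eval t.1 / Q.eval t.1, R.eval t.1 / S.eval t.1]
  let _ : Algebra A (U → ℂ) := ψ.toAlgebra
  have hsm : ∀ (φ : A) (v : U → ℂ) (t : U), (φ • v) t =
      MvPolynomial.eval ![P.eval t.1 / Q.eval t.1, R.eval t.1 / S.eval t.1] φ * v t :=
    fun _ _ _ => rfl
  have ham : ∀ (φ : A) (t : U), algebraMap A (U → ℂ) φ t =
      MvPolynomial.eval ![P.eval t.1 / Q.eval t.1, R.eval t.1 / S.eval t.1] φ :=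
    fun _ _ => rfl
  let τ : U → ℂ := fun t => t.1
  have hev : ∀ (e : ℂ[X]) (t : U),
      aeval τ (e.map (MvPolynomial.C : ℂ →+* A)) t = e.eval t.1 := by
    intro e t
    induction e using Polynomial.induction_on' with
    | add p q hp hq => simp only [Polynomial.map_add, map_add, Pi.add_apply, hp, hq, eval_add]
    | monomial n c =>
      rw [Polynomial.map_monomial, aeval_monomial, Pi.mul_apply, ham, eval_monomial, Pi.pow_apply]
      simp [τ]
  have hint : IsIntegral A τ := by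
    refine ⟨P.map MvPolynomial.C - C (MvPolynomial.X 0) * Q.map MvPolynomial.C, ?_, ?_⟩
    · refine (hP.map _).sub_of_left ?_
      rw [hP.degree_map]
      refine lt_of_le_of_lt ?_ hQ
      rw [← smul_eq_C_mul]
      exact (degree_smul_le _ _).trans degree_map_le
    · funext t
      rw [← aeval_def, map_sub, map_mul, aeval_C, Pi.sub_apply, Pi.mul_apply, hev, hev, ham]
      have := t.2.1
      simp only [MvPolynomial.eval_X, Matrix.cons_val_zero, Pi.zero_apply]
      field_simp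
      ring
  let B : Submodule A (U → ℂ) := Subalgebra.toSubmodule (Algebra.adjoin A {τ})
  have hB : ∀ e : ℂ[X], (fun t : U => e.eval t.1) ∈ B := by
    intro e
    have := Polynomial.aeval_mem_adjoin_singleton A τ (p := e.map (MvPolynomial.C : ℂ →+* A))
    have e1 : aeval τ (e.map (MvPolynomial.C : ℂ →+* A)) = fun t : U => e.eval t.1 :=
      funext (hev e)
    rw [e1] at this
    exact this
  let I : Ideal A := RingHom.ker (MvPolynomial.eval ![a, b])
  have hI0 : (MvPolynomial.X 0 - MvPolynomial.C a : A) ∈ I := by simp [I, A, RingHom.mem_ker]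
  have hI1 : (MvPolynomial.X 1 - MvPolynomial.C b : A) ∈ I := by simp [I, A, RingHom.mem_ker]
  have hK : ∀ e : ℂ[X], (fun t : U => e.eval t.1) ∈ Submodule.span A {(1 : U → ℂ)} ⊔ I • B := by
    intro e
    obtain ⟨π, hπ⟩ : X - C u ∣ e - C (e.eval u) := X_sub_C_dvd_sub_C_eval
    have e1 : (fun t : U => e.eval t.1) = (MvPolynomial.C (e.eval u) : A) • (1 : U → ℂ) +
        ((MvPolynomial.X 0 - MvPolynomial.C a : A) • (fun t : U => (Q * α * π).eval t.1) +
          (MvPolynomial.X 1 - MvPolynomial.C b : A) • (fun t : U => (S * β * π).eval t.1)) := by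
      funext t
      have h1 := congrArg (eval t.1) hπ
      rw [h] at h1
      have h2 := t.2.1
      have h3 := t.2.2
      simp only [eval_sub, eval_mul, eval_add, eval_C] at h1
      simp only [Pi.add_apply, hsm, map_sub, MvPolynomial.eval_X, MvPolynomial.eval_C, eval_mul,
        Matrix.cons_val_zero, Matrix.cons_val_one, Pi.one_apply]
      field_simp
      linear_combination h1
    rw [e1]
    exact Submodule.add_mem_sup (Submodule.smul_mem _ _ (Submodule.mem_span_singleton_self _))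
      (add_mem (Submodule.smul_mem_smul hI0 (hB _)) (Submodule.smul_mem_smul hI1 (hB _)))
  have hle : B ≤ Submodule.span A {(1 : U → ℂ)} ⊔ I • B := by
    intro x hx
    have hx' : x ∈ Algebra.adjoin A {τ} := hx
    rw [Algebra.adjoin_singleton_eq_range_aeval] at hx'
    obtain ⟨p, rfl⟩ := hx'
    clear hx
    change aeval τ p ∈ _
    induction p using Polynomial.induction_on' with
    | add p q hp hq => rw [map_add]; exact add_mem hp hq
    | monomial n c =>
      rw [aeval_monomial, ← Algebra.smul_def]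
      refine Submodule.smul_mem _ _ ?_
      have := hK (X ^ n)
      simp only [eval_pow, eval_X] at this
      exact this
  obtain ⟨r, hr, hr'⟩ := Submodule.exists_sub_one_mem_and_smul_le_of_fg_of_le_sup
    hint.fg_adjoin_singleton le_rfl hle
  refine ⟨r, ?_, fun e => ?_⟩
  · have := RingHom.mem_ker.1 hr
    rw [map_sub, map_one] at this
    exact sub_eq_zero.1 this
  · have := hr' (Submodule.smul_mem_pointwise_smul _ r _ (hB e))
    obtain ⟨φ, hφ⟩ := Submodule.mem_span_singleton.1 this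
    refine ⟨φ, fun t h1 h2 => ?_⟩
    have := congrFun hφ ⟨t, h1, h2⟩
    rw [hsm, hsm, Pi.one_apply, mul_one] at this
    exact this

theorem homog (φ : MvPolynomial (Fin 2) ℂ) : ∃ N₀ : ℕ, ∀ N, N₀ ≤ N →
    ∃ g : MvPolynomial (Fin 4) ℂ, ∀ c x y z : ℂ,
      MvPolynomial.eval (c • ![z, x, y, 1]) g = c ^ N * MvPolynomial.eval ![x, y] φ := by
  induction φ using MvPolynomial.induction_on with
  | C a => exact ⟨0, fun N _ => ⟨MvPolynomial.C a * MvPolynomial.X 3 ^ N, by simp [mul_comm]⟩⟩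
  | add p q hp hq =>
    obtain ⟨N₁, h₁⟩ := hp
    obtain ⟨N₂, h₂⟩ := hq
    refine ⟨max N₁ N₂, fun N hN => ?_⟩
    obtain ⟨g₁, e₁⟩ := h₁ N (le_trans (le_max_left _ _) hN)
    obtain ⟨g₂, e₂⟩ := h₂ N (le_trans (le_max_right _ _) hN)
    exact ⟨g₁ + g₂, fun c x y z => by rw [map_add, map_add, e₁, e₂, mul_add]⟩
  | mul_X p i hp =>
    obtain ⟨N₁, h₁⟩ := hp
    refine ⟨N₁ + 1, fun N hN => ?_⟩
    obtain ⟨M, rfl⟩ : ∃ M, N = M + 1 := ⟨N - 1, by omega⟩
    obtain ⟨g₁, e₁⟩ := h₁ M (by omega)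
    fin_cases i
    · refine ⟨g₁ * MvPolynomial.X 1, fun c x y z => ?_⟩
      rw [map_mul, map_mul, e₁]
      simp
      ring
    · refine ⟨g₁ * MvPolynomial.X 2, fun c x y z => ?_⟩
      rw [map_mul, map_mul, e₁]
      simp
      ring

/-- An equation of the cone over the curve with a prescribed differential. -/
theorem exists_equation (P Q R S α β : ℂ[X]) (hP : P.Monic) (hQ : Q.degree < P.degree)
    (u a b p q : ℂ) (h : X - C u = α * (P - C a * Q) + β * (R - C b * S))
    (hQu : Q.eval u ≠ 0) (hSu : S.eval u ≠ 0) (ha : P.eval u = a * Q.eval u)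
    (hb : R.eval u = b * S.eval u)
    (hp : P.derivative.eval u - a * Q.derivative.eval u = Q.eval u * p)
    (hq : R.derivative.eval u - b * S.derivative.eval u = S.eval u * q) :
    ∃ g : MvPolynomial (Fin 4) ℂ,
      (∀ c t z : ℂ, Q.eval t ≠ 0 → S.eval t ≠ 0 →
        MvPolynomial.eval (c • ![z, P.eval t / Q.eval t, R.eval t / S.eval t, 1]) g = 0) ∧
      ∀ c z : ℂ, c ≠ 0 → ∃ κ : ℂ, κ ≠ 0 ∧ ∀ v : Fin 4 → ℂ,
        ∑ j, MvPolynomial.eval (c • ![z, a, b, 1]) (MvPolynomial.pderiv j g) * v j =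
          κ * (q * (v 1 - a * v 3) - p * (v 2 - b * v 3)) := by
  obtain ⟨r, hr, hφ⟩ := local_iso P Q R S α β hP hQ u a b h
  obtain ⟨π, hπ⟩ : (X - C u) ^ 2 ∣ C q * (P - C a * Q) * S - C p * (R - C b * S) * Q := by
    obtain ⟨π₁, h₁⟩ : X - C u ∣ C q * (P - C a * Q) * S - C p * (R - C b * S) * Q := by
      rw [dvd_iff_isRoot, IsRoot.def]
      simp only [eval_sub, eval_mul, eval_C]
      rw [ha, hb]
      ring
    have h₂ := congrArg (fun e => eval u (derivative e)) h₁
    simp only [derivative_sub, derivative_mul, derivative_C, derivative_X, eval_sub, eval_add,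
      eval_mul, eval_C, eval_X, eval_zero, eval_one] at h₂
    obtain ⟨π₂, h₃⟩ : X - C u ∣ π₁ := by
      rw [dvd_iff_isRoot, IsRoot.def]
      rw [ha, hb] at h₂
      linear_combination (-1) * h₂ + q * S.eval u * hp - p * Q.eval u * hq
    exact ⟨π₂, by rw [h₁, h₃]; ring⟩
  obtain ⟨φ₀, e₀⟩ := hφ (Q * S)
  obtain ⟨φ₁, e₁⟩ := hφ ((Q * α) ^ 2 * π)
  obtain ⟨φ₂, e₂⟩ := hφ (C 2 * (Q * α) * (S * β) * π)
  obtain ⟨φ₃, e₃⟩ := hφ ((S * β) ^ 2 * π)
  obtain ⟨N₀, k₀⟩ := homog φ₀
  obtain ⟨N₁, k₁⟩ := homog φ₁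
  obtain ⟨N₂, k₂⟩ := homog φ₂
  obtain ⟨N₃, k₃⟩ := homog φ₃
  obtain ⟨g₀, f₀⟩ := k₀ (N₀ + N₁ + N₂ + N₃) (by omega)
  obtain ⟨g₁, f₁⟩ := k₁ (N₀ + N₁ + N₂ + N₃) (by omega)
  obtain ⟨g₂, f₂⟩ := k₂ (N₀ + N₁ + N₂ + N₃) (by omega)
  obtain ⟨g₃, f₃⟩ := k₃ (N₀ + N₁ + N₂ + N₃) (by omega)
  generalize N₀ + N₁ + N₂ + N₃ = N at f₀ f₁ f₂ f₃
  obtain ⟨L₁, hL₁⟩ : ∃ L : MvPolynomial (Fin 4) ℂ,
    L = MvPolynomial.X 1 - MvPolynomial.C a * MvPolynomial.X 3 := ⟨_, rfl⟩
  obtain ⟨L₂, hL₂⟩ : ∃ L : MvPolynomial (Fin 4) ℂ,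
    L = MvPolynomial.X 2 - MvPolynomial.C b * MvPolynomial.X 3 := ⟨_, rfl⟩
  refine ⟨g₀ * MvPolynomial.X 3 * (MvPolynomial.C q * L₁ - MvPolynomial.C p * L₂) -
    (g₁ * (L₁ * L₁) + g₂ * (L₁ * L₂) + g₃ * (L₂ * L₂)), fun c t z h1 h2 => ?_, fun c z hc => ?_⟩
  · have l₁ : MvPolynomial.eval (c • ![z, P.eval t / Q.eval t, R.eval t / S.eval t, 1]) L₁ =
        c * (P.eval t / Q.eval t - a) := by rw [hL₁]; simp; ring
    have l₂ : MvPolynomial.eval (c • ![z, P.eval t / Q.eval t, R.eval t / S.eval t, 1]) L₂ =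
        c * (R.eval t / S.eval t - b) := by rw [hL₂]; simp; ring
    simp only [map_sub, map_add, map_mul, f₀, f₁, f₂, f₃, e₀ t h1 h2, e₁ t h1 h2, e₂ t h1 h2,
      e₃ t h1 h2, l₁, l₂, MvPolynomial.eval_C, MvPolynomial.eval_X]
    have h3 := congrArg (eval t) hπ
    rw [h] at h3
    simp only [eval_sub, eval_mul, eval_add, eval_C, eval_pow] at h3 ⊢
    generalize MvPolynomial.eval ![P.eval t / Q.eval t, R.eval t / S.eval t] r = ρ
    simp only [Pi.smul_apply, Matrix.cons_val, smul_eq_mul]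
    field_simp
    linear_combination (c ^ N * ρ * c ^ 2) * h3
  · have l₁ : MvPolynomial.eval (c • ![z, a, b, 1]) L₁ = 0 := by rw [hL₁]; simp; ring
    have l₂ : MvPolynomial.eval (c • ![z, a, b, 1]) L₂ = 0 := by rw [hL₂]; simp; ring
    have ea : P.eval u / Q.eval u = a := by rw [ha]; field_simp
    have eb : R.eval u / S.eval u = b := by rw [hb]; field_simp
    have e₀' := e₀ u hQu hSu
    rw [ea, eb, hr, one_mul, eval_mul] at e₀'
    refine ⟨c ^ N * (Q.eval u * S.eval u) * c, by positivity, fun v => ?_⟩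
    simp only [map_sub, map_add, Derivation.leibniz, smul_eq_mul, map_mul, l₁, l₂, f₀, e₀',
      MvPolynomial.eval_C, MvPolynomial.eval_X, MvPolynomial.pderiv_C, map_zero]
    simp [hL₁, hL₂, Fin.sum_univ_four, MvPolynomial.pderiv_X, Pi.single_apply]
    ring

end Pool.Agent.Work.MP_0a826e_ag
end

-- merged part: Pool.Agent.Work.MP_0a826e_ag.Smooth
section
/-!
The images of the conic are smooth at the points of the orbits, with the iterated tangent lines
as tangent spaces.
-/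

namespace Pool.Agent.Work.MP_0a826e_ag

open Projectivization Polynomial
open scoped LinearAlgebra.Projectivization

variable (w : ℂ)

/-- Numerator and denominator of the iterates of the first map. -/
noncomputable def it1 : ℕ → ℂ[X] × ℂ[X]
  | 0 => (X, 1)
  | m + 1 => ((it1 m).1 * ((it1 m).1 - C (w - 2) * (it1 m).2),
      (it1 m).2 * (C (w - 2) * (it1 m).1 - (it1 m).2))

/-- Numerator and denominator of the iterates of the second map. -/
noncomputable def it2 : ℕ → ℂ[X] × ℂ[X]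
  | 0 => (X, 1)
  | m + 1 => (C (-1 - w) * ((it2 m).1 * (it2 m).2), ((it2 m).1 + (it2 m).2) ^ 2)

theorem it1_monic (m : ℕ) : (it1 w m).1.Monic ∧ (it1 w m).2.degree < (it1 w m).1.degree := by
  induction m with
  | zero => exact ⟨monic_X, by simp [it1]⟩
  | succ m ih =>
    obtain ⟨h1, h2⟩ := ih
    have h3 : (C (w - 2) * (it1 w m).2).degree < (it1 w m).1.degree := by
      rw [← smul_eq_C_mul]
      exact lt_of_le_of_lt (degree_smul_le _ _) h2
    have h4 : (C (w - 2) * (it1 w m).1 - (it1 w m).2).degree ≤ (it1 w m).1.degree := by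
      refine (degree_sub_le _ _).trans (max_le ?_ h2.le)
      rw [← smul_eq_C_mul]
      exact degree_smul_le _ _
    refine ⟨h1.mul (h1.sub_of_left h3), ?_⟩
    simp only [it1]
    rw [degree_mul, degree_mul, degree_sub_eq_left_of_degree_lt h3]
    exact lt_of_le_of_lt (add_le_add le_rfl h4)
      (WithBot.add_lt_add_right (degree_ne_bot.2 h1.ne_zero) h2)

theorem iter_seg (m : ℕ) (t : ℂ) : (evalMap (FF w))^[m] (seg t 1 t 1) =
    seg ((it1 w m).1.eval t) ((it1 w m).2.eval t) ((it2 w m).1.eval t) ((it2 w m).2.eval t) := by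
  induction m with
  | zero => simp [it1, it2]
  | succ m ih =>
    rw [Function.iterate_succ_apply', ih, evalMap_seg]
    simp [it1, it2]

variable {w}

theorem iter_smul (m : ℕ) (c : ℂ) (v : Fin 4 → ℂ) :
    (evalMap (FF w))^[m] (c • v) = (c ^ 2 ^ m) • (evalMap (FF w))^[m] v := by
  induction m with
  | zero => simp
  | succ m ih =>
    rw [Function.iterate_succ_apply', Function.iterate_succ_apply', ih, evalMap_smul, ← pow_mul,
      pow_succ 2 m]

theorem iter_ne (hw : w ^ 2 = w - 2) (m : ℕ) {v : Fin 4 → ℂ} (hv : v ≠ 0) :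
    (evalMap (FF w))^[m] v ≠ 0 := by
  induction m with
  | zero => exact hv
  | succ m ih => rw [Function.iterate_succ_apply']; exact FF_ne hw _ ih

theorem iter_mk (hw : w ^ 2 = w - 2) (m : ℕ) (v : Fin 4 → ℂ) (hv : v ≠ 0) :
    (projMap (FF w) (FF_ne hw))^[m] (mk ℂ v hv) = mk ℂ _ (iter_ne hw m hv) := by
  induction m with
  | zero => rfl
  | succ m ih =>
    rw [Function.iterate_succ_apply', ih, projMap_mk hw]
    congr 1
    exact (Function.iterate_succ_apply' _ _ _).symm

theorem continuous_iter (m : ℕ) : Continuous (evalMap (FF w))^[m] :=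
  Continuous.iterate (continuous_pi fun i => MvPolynomial.continuous_eval (FF w i)) m

theorem mem_idealOf_image (hw : w ^ 2 = w - 2) (m : ℕ) {g : MvPolynomial (Fin 4) ℂ} :
    g ∈ idealOf ((projMap (FF w) (FF_ne hw))^[m] '' YY) ↔
      ∀ c s0 s1 : ℂ, MvPolynomial.eval (c • (evalMap (FF w))^[m] (seg s0 s1 s0 s1)) g = 0 := by
  unfold idealOf
  rw [MvPolynomial.mem_vanishingIdeal_iff]
  have h0 : seg 1 0 1 0 ≠ 0 := fun h => by simpa [seg] using congrFun h 0
  have hY : ∀ (s0 s1 : ℂ) (hv : seg s0 s1 s0 s1 ≠ 0), mk ℂ _ hv ∈ YY := fun s0 s1 hv =>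
    (mk_mem_YY _).2 (by simp [seg]; constructor <;> ring)
  constructor
  · intro h c s0 s1
    by_cases hv : seg s0 s1 s0 s1 = 0
    · refine h _ ⟨_, ⟨_, hY 1 0 h0, rfl⟩, ?_⟩
      have := iter_smul (w := w) m 0 0
      rw [zero_smul, zero_pow (by positivity), zero_smul] at this
      rw [hv, this, smul_zero]
      exact zero_mem _
    · refine h _ ⟨_, ⟨_, hY s0 s1 hv, rfl⟩, ?_⟩
      rw [iter_mk hw, submodule_mk]
      exact Submodule.smul_mem _ _ (Submodule.mem_span_singleton_self _)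
  · rintro h v ⟨_, ⟨y, hy, rfl⟩, hv⟩
    obtain ⟨s0, s1, hs⟩ := exists_seg hy.1 hy.2
    rw [← mk_rep y, iter_mk hw, submodule_mk, Submodule.mem_span_singleton] at hv
    obtain ⟨c, rfl⟩ := hv
    rw [hs]
    exact h c s0 s1

theorem seg_eq_pt {P Q R S : ℂ} (hQ : Q ≠ 0) (hS : S ≠ 0) :
    seg P Q R S = (Q * S) • pt (P / Q) (R / S) := by
  funext i
  fin_cases i <;> simp [seg, pt] <;> field_simp

/-- A polynomial vanishing on the cone over the affine part lies in the ideal of the image. -/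
theorem mem_idealOf_of_affine (hw : w ^ 2 = w - 2) (m : ℕ) {g : MvPolynomial (Fin 4) ℂ} {u : ℂ}
    (hQ : (it1 w m).2.eval u ≠ 0) (hS : (it2 w m).2.eval u ≠ 0)
    (h : ∀ c t : ℂ, (it1 w m).2.eval t ≠ 0 → (it2 w m).2.eval t ≠ 0 →
      MvPolynomial.eval (c • pt ((it1 w m).1.eval t / (it1 w m).2.eval t)
        ((it2 w m).1.eval t / (it2 w m).2.eval t)) g = 0) :
    g ∈ idealOf ((projMap (FF w) (FF_ne hw))^[m] '' YY) := by
  rw [mem_idealOf_image hw]
  have hseg : ∀ s0 : ℂ, Continuous fun s1 : ℂ => seg s0 s1 s0 s1 := fun s0 =>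
    continuous_pi fun i => by fin_cases i <;> simp [seg] <;> fun_prop
  have hseg' : Continuous fun t : ℂ => seg t 1 t 1 :=
    continuous_pi fun i => by fin_cases i <;> simp [seg] <;> fun_prop
  have h1 : ∀ c t : ℂ, MvPolynomial.eval (c • (evalMap (FF w))^[m] (seg t 1 t 1)) g = 0 := by
    intro c
    have hne : (it1 w m).2 * (it2 w m).2 ≠ 0 := fun h0 => by
      have := congrArg (eval u) h0
      rw [eval_mul, eval_zero] at this
      exact mul_ne_zero hQ hS this
    have hd : Dense ({t | IsRoot ((it1 w m).2 * (it2 w m).2) t}ᶜ) :=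
      (finite_setOfPred_isRoot hne).countable.dense_compl ℂ
    have hc : Continuous fun t : ℂ =>
        MvPolynomial.eval (c • (evalMap (FF w))^[m] (seg t 1 t 1)) g :=
      (MvPolynomial.continuous_eval g).comp (((continuous_iter m).comp hseg').const_smul c)
    have := Continuous.ext_on hd hc continuous_const (g := fun _ => (0 : ℂ)) (fun t ht => by
      have ht' : (it1 w m).2.eval t * (it2 w m).2.eval t ≠ 0 := by
        rw [← eval_mul]; exact ht
      simp only
      rw [iter_seg, seg_eq_pt (left_ne_zero_of_mul ht') (right_ne_zero_of_mul ht'), smul_smul]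
      exact h _ t (left_ne_zero_of_mul ht') (right_ne_zero_of_mul ht'))
    exact fun t => congrFun this t
  intro c s0
  have hd : Dense (({0} : Set ℂ)ᶜ) := (Set.countable_singleton 0).dense_compl ℂ
  have hc : Continuous fun s1 : ℂ =>
      MvPolynomial.eval (c • (evalMap (FF w))^[m] (seg s0 s1 s0 s1)) g :=
    (MvPolynomial.continuous_eval g).comp (((continuous_iter m).comp (hseg s0)).const_smul c)
  have := Continuous.ext_on hd hc continuous_const (g := fun _ => (0 : ℂ)) (fun s1 hs => by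
    have hs' : s1 ≠ 0 := hs
    have e : seg s0 s1 s0 s1 = (s1 * s1) • seg (s0 / s1) 1 (s0 / s1) 1 := by
      funext i
      fin_cases i <;> simp [seg] <;> field_simp
    simp only
    rw [e, iter_smul, smul_smul]
    exact h1 _ _)
  exact fun s1 => congrFun this s1

theorem it1_spec {k : ℕ} {u : ℂ} (hu : u ∈ lev w k) (m : ℕ) :
    (it1 w m).2.eval u ≠ 0 ∧ (it1 w m).1.eval u = (g1 w)^[m] u * (it1 w m).2.eval u ∧
      (it1 w m).1.derivative.eval u - (g1 w)^[m] u * (it1 w m).2.derivative.eval u =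
        (it1 w m).2.eval u * ∏ j ∈ Finset.range m, d1 w ((g1 w)^[j] u) := by
  induction m with
  | zero => simp [it1]
  | succ m ih =>
    obtain ⟨h1, h2, h3⟩ := ih
    have h0 := den_ne (iter_g1_mem hu m)
    rw [Function.iterate_succ_apply', Finset.prod_range_succ]
    simp only [it1, derivative_mul, derivative_sub, derivative_C, eval_mul, eval_sub, eval_add,
      eval_C, eval_zero]
    have h4 := sub_eq_iff_eq_add.1 h3
    rw [h4, h2]
    generalize (g1 w)^[m] u = a at h0 ⊢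
    generalize (it1 w m).2.eval u = Q at h1 ⊢
    have h0' : a * (w - 2) - 1 ≠ 0 := by rwa [mul_comm] at h0
    unfold g1 d1
    refine ⟨mul_ne_zero h1 ?_, ?_, ?_⟩
    · rw [show (w - 2) * (a * Q) - Q = ((w - 2) * a - 1) * Q by ring]
      exact mul_ne_zero h0 h1
    · field_simp
    · field_simp
      ring

theorem it2_spec (hw : w ^ 2 = w - 2) {k : ℕ} {u : ℂ} (hu : u ∈ lev w k) (m : ℕ) :
    (it2 w m).2.eval u ≠ 0 ∧ (it2 w m).1.eval u = (g2 w)^[m] u * (it2 w m).2.eval u ∧
      (it2 w m).1.derivative.eval u - (g2 w)^[m] u * (it2 w m).2.derivative.eval u =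
        (it2 w m).2.eval u * ∏ j ∈ Finset.range m, d2 w ((g2 w)^[j] u) := by
  induction m with
  | zero => simp [it2]
  | succ m ih =>
    obtain ⟨h1, h2, h3⟩ := ih
    have h0 := add_one_ne hw (iter_g2_mem hw hu m)
    rw [Function.iterate_succ_apply', Finset.prod_range_succ]
    simp only [it2, sq, derivative_mul, derivative_add, derivative_C, eval_mul, eval_add,
      eval_C, eval_zero]
    have h4 := sub_eq_iff_eq_add.1 h3
    rw [h4, h2]
    generalize (g2 w)^[m] u = b at h0 ⊢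
    generalize (it2 w m).2.eval u = S at h1 ⊢
    unfold g2 d2
    refine ⟨?_, ?_, ?_⟩
    · rw [show b * S + S = (b + 1) * S by ring]
      exact mul_ne_zero (mul_ne_zero h0 h1) (mul_ne_zero h0 h1)
    · field_simp
    · field_simp
      ring

theorem mul_ne_one_of_lev {k : ℕ} {a b : ℂ} (ha : a ∈ lev w k) (hb : b ∈ lev w k) : a * b ≠ 1 := by
  induction k generalizing a b with
  | zero =>
    have : a = 0 := ha
    simp [this]
  | succ k ih =>
    intro h
    refine ih ha.2 hb.2 ?_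
    unfold g1
    rw [div_mul_div_comm, div_eq_one_iff_eq (mul_ne_zero ha.1 hb.1)]
    linear_combination (a * b - (w - 2) * (a + b) + 1) * h

theorem g2_inj (hw : w ^ 2 = w - 2) {k : ℕ} {a b : ℂ} (ha : a ∈ lev w k) (hb : b ∈ lev w k)
    (h : g2 w a = g2 w b) : a = b := by
  unfold g2 at h
  rw [div_eq_div_iff (pow_ne_zero _ (add_one_ne hw ha)) (pow_ne_zero _ (add_one_ne hw hb))] at h
  have h1 : (-1 - w) * ((a - b) * (1 - a * b)) = 0 := by linear_combination h
  rcases mul_eq_zero.1 ((mul_eq_zero.1 h1).resolve_left (b_ne hw)) with h2 | h2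
  · exact sub_eq_zero.1 h2
  · exact absurd (sub_eq_zero.1 h2).symm (mul_ne_one_of_lev ha hb)

theorem iter_g2_inj (hw : w ^ 2 = w - 2) {k : ℕ} {a b : ℂ} (ha : a ∈ lev w k) (hb : b ∈ lev w k)
    (m : ℕ) (h : (g2 w)^[m] a = (g2 w)^[m] b) : a = b := by
  induction m with
  | zero => exact h
  | succ m ih =>
    rw [Function.iterate_succ_apply', Function.iterate_succ_apply'] at h
    exact ih (g2_inj hw (iter_g2_mem hw ha m) (iter_g2_mem hw hb m) h)

/-- Only one parameter is sent to a point of the orbit. -/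
theorem single_branch (hw : w ^ 2 = w - 2) {k : ℕ} {u : ℂ} (hu : u ∈ lev w k) (m : ℕ) {t : ℂ}
    (h1 : (it1 w m).1.eval t = (g1 w)^[m] u * (it1 w m).2.eval t)
    (h2 : (it2 w m).1.eval t = (g2 w)^[m] u * (it2 w m).2.eval t) : t = u := by
  have hv : seg t 1 t 1 ≠ 0 := fun h => by simpa [seg] using congrFun h 3
  have e : (evalMap (FF w))^[m] (seg t 1 t 1) =
      ((it1 w m).2.eval t * (it2 w m).2.eval t) • pt ((g1 w)^[m] u) ((g2 w)^[m] u) := by
    rw [iter_seg, h1, h2]
    funext i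
    fin_cases i <;> simp [seg, pt] <;> ring
  have h3 : (projMap (FF w) (FF_ne hw))^[m] (mk ℂ _ hv) = PP ((g1 w)^[m] u) ((g2 w)^[m] u) := by
    rw [iter_mk hw]
    unfold PP
    rw [mk_eq_mk_iff']
    exact ⟨_, e.symm⟩
  have h4 := (back hw m (iter_g1_mem hu m) _ _ _ _ hv h3).2
  rw [div_one] at h4
  have h5 : mk ℂ _ hv = PP t t := by
    unfold PP
    congr 1
    funext i
    fin_cases i <;> simp [seg, pt]
  rw [h5, iter_PP hw h4 h4] at h3
  exact iter_g2_inj hw h4 (lev_mono (Nat.le_add_right k m) hu) m (PP_inj h3).2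

/-- Two polynomials whose only common root is a simple root of the second one. -/
theorem exists_bezout {A B : ℂ[X]} {u : ℂ} (hA : A.eval u = 0) (hB : B.eval u = 0)
    (hB' : B.derivative.eval u ≠ 0) (h : ∀ t, A.eval t = 0 → B.eval t = 0 → t = u) :
    ∃ α β : ℂ[X], X - C u = α * A + β * B := by
  obtain ⟨A₁, rfl⟩ := dvd_iff_isRoot.2 hA
  obtain ⟨B₁, rfl⟩ := dvd_iff_isRoot.2 hB
  have h1 : B₁.eval u ≠ 0 := by simpa using hB'
  have hc : IsCoprime A₁ B₁ := by
    refine (isCoprime_iff_aeval_ne_zero_of_isAlgClosed ℂ ℂ A₁ B₁).2 fun t => ?_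
    by_contra hc
    rw [not_or, not_not, not_not, coe_aeval_eq_eval] at hc
    have := h t (by simp [hc.1]) (by simp [hc.2])
    exact h1 (this ▸ hc.2)
  obtain ⟨α, β, e⟩ := hc
  exact ⟨α, β, by linear_combination (-(X - C u)) * e⟩

theorem tangent_at {n : ℕ} (γ : Fin n → ℂ[X]) (g : MvPolynomial (Fin n) ℂ) (u : ℂ)
    (h : ∀ t, MvPolynomial.eval (fun i => eval t (γ i)) g = 0) :
    ∑ j, MvPolynomial.eval (fun i => eval u (γ i)) (MvPolynomial.pderiv j g) *
      eval u (derivative (γ j)) = 0 := by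
  have h0 : MvPolynomial.aeval γ g = 0 := by
    apply Polynomial.funext
    intro t
    rw [polyeval_aeval, h, eval_zero]
  have h1 := congrArg (eval u) (deriv_aeval γ g)
  rw [h0, derivative_zero, eval_zero, eval_finsetSum] at h1
  simp only [eval_mul, polyeval_aeval] at h1
  exact h1.symm

theorem tangentSpace_image (hw : w ^ 2 = w - 2) {k : ℕ} {u : ℂ} (hu : u ∈ lev w k) (m : ℕ) :
    tangentSpace ((projMap (FF w) (FF_ne hw))^[m] '' YY) (PP ((g1 w)^[m] u) ((g2 w)^[m] u)) =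
      WW ((g1 w)^[m] u) ((g2 w)^[m] u) (∏ j ∈ Finset.range m, d1 w ((g1 w)^[j] u))
        (∏ j ∈ Finset.range m, d2 w ((g2 w)^[j] u)) := by
  obtain ⟨hQ, ha, hp⟩ := it1_spec hu m
  obtain ⟨hS, hb, hq⟩ := it2_spec hw hu m
  have hq0 := prod_d2_ne hw hu m
  have hsb := fun t => single_branch hw hu m (t := t)
  have hI := fun g => mem_idealOf_image hw m (g := g)
  have hA := fun g => mem_idealOf_of_affine hw m (g := g) hQ hS
  have hseg := iter_seg w m
  obtain ⟨hP1, hP2⟩ := it1_monic w m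
  generalize (g1 w)^[m] u = a at *
  generalize (g2 w)^[m] u = b at *
  generalize ∏ j ∈ Finset.range m, d1 w ((g1 w)^[j] u) = p at *
  generalize ∏ j ∈ Finset.range m, d2 w ((g2 w)^[j] u) = q at *
  generalize (it1 w m).1 = P at *
  generalize (it1 w m).2 = Q at *
  generalize (it2 w m).1 = R at *
  generalize (it2 w m).2 = S at *
  obtain ⟨c, hc⟩ := exists_smul_eq_mk_rep ℂ (pt a b) (pt_ne a b)
  have hc0 : (c : ℂ) ≠ 0 := c.ne_zero
  have hrep : (PP a b).rep = (c : ℂ) • pt a b := hc.symm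
  apply le_antisymm
  · intro z hz
    rw [mem_tangentSpace, hrep] at hz
    obtain ⟨α, β, hαβ⟩ := exists_bezout (A := P - C a * Q) (B := R - C b * S) (u := u)
      (by simp [ha]) (by simp [hb])
      (by simp only [derivative_sub, derivative_mul, derivative_C, zero_mul, zero_add, eval_sub,
            eval_mul, eval_C]
          rw [hq]; exact mul_ne_zero hS hq0)
      (fun t h1 h2 => by
        simp only [eval_sub, eval_mul, eval_C] at h1 h2
        exact hsb t (sub_eq_zero.1 h1) (sub_eq_zero.1 h2))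
    obtain ⟨g, hg1, hg2⟩ := exists_equation P Q R S α β hP1 hP2 u a b p q hαβ hQ hS ha hb hp hq
    obtain ⟨κ, hκ, hg3⟩ := hg2 c (a * b) hc0
    have h1 := hz g (hA g fun c t h1 h2 => hg1 c t _ h1 h2)
    have h1' : κ * (q * (z 1 - a * z 3) - p * (z 2 - b * z 3)) = 0 := (hg3 z).symm.trans h1
    have h1'' := (mul_eq_zero.1 h1').resolve_left hκ
    have h2 := hz (MvPolynomial.X 0 * MvPolynomial.X 3 - MvPolynomial.X 1 * MvPolynomial.X 2)
      (hA _ fun c t _ _ => by simp [pt]; ring)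
    simp [Fin.sum_univ_four, Derivation.leibniz, MvPolynomial.pderiv_X, Pi.single_apply, pt] at h2
    have h3 : z 0 + a * b * z 3 - b * z 1 - a * z 2 = 0 := by
      apply mul_left_cancel₀ hc0
      linear_combination h2
    refine Submodule.mem_span_pair.2 ⟨z 3, (z 2 - b * z 3) / q, ?_⟩
    funext i
    fin_cases i <;> simp [pt, dir] <;> field_simp
    · linear_combination (-q) * h3 - b * h1''
    · linear_combination (-1) * h1''
    · ring
  · have hpt : ∀ g ∈ idealOf ((projMap (FF w) (FF_ne hw))^[m] '' YY),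
        ∑ j, MvPolynomial.eval ((c : ℂ) • pt a b) (MvPolynomial.pderiv j g) * pt a b j = 0 := by
      intro g hg
      have e0 : seg (P.eval u) (Q.eval u) (R.eval u) (S.eval u) =
          (Q.eval u * S.eval u) • pt a b := by
        rw [ha, hb]
        funext i
        fin_cases i <;> simp [seg, pt] <;> ring
      have := tangent_at (fun i => C (pt a b i) * X) g c (fun t => by
        have h1 := (hI g).1 hg (t / (Q.eval u * S.eval u)) u 1
        rw [hseg, e0, smul_smul, div_mul_cancel₀ _ (mul_ne_zero hQ hS)] at h1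
        rw [← h1]
        congr 2
        funext i
        simp only [eval_mul, eval_C, eval_X, Pi.smul_apply, smul_eq_mul, mul_comm])
      have e : (fun i => eval (c : ℂ) (C (pt a b i) * X)) = (c : ℂ) • pt a b := by
        funext i
        simp only [eval_mul, eval_C, eval_X, Pi.smul_apply, smul_eq_mul, mul_comm]
      rw [e] at this
      simpa using this
    unfold WW
    rw [Submodule.span_le]
    rintro z (rfl | rfl)
    · rw [SetLike.mem_coe, mem_tangentSpace, hrep]
      exact hpt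
    · rw [SetLike.mem_coe, mem_tangentSpace, hrep]
      intro g hg
      obtain ⟨κ, hκ⟩ : ∃ κ : ℂ, κ * (Q.eval u * S.eval u) = c :=
        ⟨c / (Q.eval u * S.eval u), div_mul_cancel₀ _ (mul_ne_zero hQ hS)⟩
      have := tangent_at ![C κ * (P * R), C κ * (P * S), C κ * (Q * R), C κ * (Q * S)] g u
        (fun t => by
          have h1 := (hI g).1 hg κ t 1
          rw [hseg] at h1
          rw [← h1]
          congr 2
          funext i
          fin_cases i <;> simp [seg])
      have e : (fun i => eval u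
          (![C κ * (P * R), C κ * (P * S), C κ * (Q * R), C κ * (Q * S)] i)) =
          (c : ℂ) • pt a b := by
        rw [← hκ]
        funext i
        fin_cases i <;> simp [pt, ha, hb] <;> ring
      rw [e] at this
      have h2 := hpt g hg
      have h3 := sub_eq_iff_eq_add.1 hp
      have h4 := sub_eq_iff_eq_add.1 hq
      simp only [Fin.sum_univ_four] at this h2 ⊢
      generalize MvPolynomial.eval ((c : ℂ) • pt a b) (MvPolynomial.pderiv 0 g) = y0 at *
      generalize MvPolynomial.eval ((c : ℂ) • pt a b) (MvPolynomial.pderiv 1 g) = y1 at *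
      generalize MvPolynomial.eval ((c : ℂ) • pt a b) (MvPolynomial.pderiv 2 g) = y2 at *
      generalize MvPolynomial.eval ((c : ℂ) • pt a b) (MvPolynomial.pderiv 3 g) = y3 at *
      simp [pt, dir, h3, h4, ha, hb] at this h2 ⊢
      apply mul_left_cancel₀ hc0
      rw [← hκ]
      linear_combination this -
        κ * (Q.derivative.eval u * S.eval u + Q.eval u * S.derivative.eval u) * h2

end Pool.Agent.Work.MP_0a826e_ag
end

-- merged part: Pool.Agent.Work.MP_0a826e_ag.Image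
section
/-!
The images of the conic are irreducible curves; a preperiodic line inside the critical locus.
-/

namespace Pool.Agent.Work.MP_0a826e_ag

open MvPolynomial Projectivization
open scoped LinearAlgebra.Projectivization

variable {w : ℂ}

theorem iter_zero (m : ℕ) : (evalMap (FF w))^[m] 0 = 0 := by
  have := iter_smul (w := w) m 0 0
  rwa [zero_smul, zero_pow (by positivity), zero_smul] at this

theorem cone_closed (hw : w ^ 2 = w - 2) (m : ℕ) (y : Fin 4 → ℂ)
    (hy : ∀ g ∈ vanishingIdeal ℂ {v | ∃ s0 s1, v = (evalMap (FF w))^[m] (seg s0 s1 s0 s1)},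
      eval y g = 0) : y ∈ {v | ∃ s0 s1, v = (evalMap (FF w))^[m] (seg s0 s1 s0 s1)} := by
  induction m generalizing y with
  | zero =>
    have h1 := hy (X 1 - X 2) (by rintro _ ⟨s0, s1, rfl⟩; simp [seg]; ring)
    have h2 := hy (X 0 * X 3 - X 1 * X 2) (by rintro _ ⟨s0, s1, rfl⟩; simp [seg]; ring)
    simp only [map_sub, map_mul, eval_X] at h1 h2
    exact exists_seg (by linear_combination h1) (by linear_combination h2)
  | succ m ih =>
    obtain ⟨_, ⟨s0, s1, rfl⟩, h⟩ := closed_image (FF w) 2 (by norm_num) (FF_hom w)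
      (fun v hv => by_contra fun h => FF_ne hw v h (funext hv)) _ ih y (fun g hg => hy g (by
        rintro _ ⟨s0, s1, rfl⟩
        rw [Function.iterate_succ_apply']
        exact hg _ ⟨s0, s1, rfl⟩))
    exact ⟨s0, s1, by rw [Function.iterate_succ_apply']; exact h.symm⟩

/-- The iterates as polynomial maps. -/
noncomputable def gamIt (w : ℂ) : ℕ → Fin 4 → MvPolynomial (Fin 4) ℂ
  | 0 => gam2
  | m + 1 => fun i => aeval (gamIt w m) (FF w i)

theorem evalMap_gamIt (m : ℕ) (x : Fin 4 → ℂ) :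
    evalMap (gamIt w m) x = (evalMap (FF w))^[m] (seg (x 0) (x 1) (x 0) (x 1)) := by
  induction m with
  | zero => funext i; fin_cases i <;> simp [evalMap, gamIt, gam2, seg]
  | succ m ih =>
    rw [Function.iterate_succ_apply', ← ih]
    funext i
    exact eval_aeval _ _ _

theorem smul_iter_seg (m : ℕ) (c s0 s1 : ℂ) : ∃ t0 t1 : ℂ,
    c • (evalMap (FF w))^[m] (seg s0 s1 s0 s1) = (evalMap (FF w))^[m] (seg t0 t1 t0 t1) := by
  obtain ⟨r, hr⟩ := IsAlgClosed.exists_pow_nat_eq c (n := 2 * 2 ^ m) (by positivity)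
  refine ⟨r * s0, r * s1, ?_⟩
  have : seg (r * s0) (r * s1) (r * s0) (r * s1) = (r ^ 2) • seg s0 s1 s0 s1 := by
    funext i; fin_cases i <;> simp [seg] <;> ring
  rw [this, iter_smul, ← pow_mul, hr]

theorem idealOf_image_eq (hw : w ^ 2 = w - 2) (m : ℕ) :
    idealOf ((projMap (FF w) (FF_ne hw))^[m] '' YY) =
      vanishingIdeal ℂ (Set.range (evalMap (gamIt w m))) := by
  ext g
  rw [mem_idealOf_image hw, mem_vanishingIdeal_iff]
  constructor
  · rintro h _ ⟨x, rfl⟩
    have := h 1 (x 0) (x 1)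
    rw [one_smul, ← evalMap_gamIt] at this
    exact this
  · intro h c s0 s1
    obtain ⟨t0, t1, e⟩ := smul_iter_seg (w := w) m c s0 s1
    rw [e]
    exact h _ ⟨![t0, t1, 0, 0], by rw [evalMap_gamIt]; rfl⟩

theorem iter_seg_seg (m : ℕ) (s0 s1 t0 t1 : ℂ) :
    ∃ a b c d : ℂ, (evalMap (FF w))^[m] (seg s0 s1 t0 t1) = seg a b c d := by
  induction m with
  | zero => exact ⟨_, _, _, _, rfl⟩
  | succ m ih =>
    obtain ⟨a, b, c, d, e⟩ := ih
    exact ⟨_, _, _, _, by rw [Function.iterate_succ_apply', e, evalMap_seg]⟩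

/-- Parametrisation of the cone over the quadric. -/
noncomputable def gamQ : Fin 4 → MvPolynomial (Fin 4) ℂ :=
  ![X 0 * X 2, X 0 * X 3, X 1 * X 2, X 1 * X 3]

theorem evalMap_gamQ (x : Fin 4 → ℂ) : evalMap gamQ x = seg (x 0) (x 1) (x 2) (x 3) := by
  funext i; fin_cases i <;> simp [evalMap, gamQ, seg]

theorem iter_g_zero (m : ℕ) : (g1 w)^[m] 0 = 0 ∧ (g2 w)^[m] 0 = 0 :=
  ⟨Function.iterate_fixed (by simp [g1]) m, Function.iterate_fixed (by simp [g2]) m⟩

theorem image_subvariety (hw : w ^ 2 = w - 2) (m : ℕ) :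
    IsSubvariety ((projMap (FF w) (FF_ne hw))^[m] '' YY) 1 := by
  refine ⟨fun p hp => ?_, idealOf_image_eq hw m ▸ prime_range _, ?_⟩
  · obtain ⟨s0, s1, e⟩ := cone_closed hw m p.rep fun g hg => hp g (by
      rw [idealOf_image_eq hw]
      rintro _ ⟨x, rfl⟩
      exact hg _ ⟨_, _, evalMap_gamIt m x⟩)
    have hv : seg s0 s1 s0 s1 ≠ 0 := fun h => p.rep_nonzero (by rw [e, h, iter_zero])
    refine ⟨mk ℂ _ hv, (mk_mem_YY _).2 (by simp [seg]; constructor <;> ring), ?_⟩
    rw [iter_mk hw, ← mk_rep p]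
    congr 1
    exact e.symm
  have hT := tangentSpace_image hw (zero_mem_lev 0) m
  rw [(iter_g_zero m).1, (iter_g_zero m).2] at hT
  have hq := prod_d2_ne hw (zero_mem_lev (w := w) 0) m
  generalize ∏ j ∈ Finset.range m, d1 w ((g1 w)^[j] 0) = p at hT
  generalize ∏ j ∈ Finset.range m, d2 w ((g2 w)^[j] 0) = q at hT hq
  have hex : ∃ g ∈ idealOf ((projMap (FF w) (FF_ne hw))^[m] '' YY),
      ∃ y, eval (evalMap gamQ y) g ≠ 0 := by
    by_contra hc
    have hc' : ∀ g ∈ idealOf ((projMap (FF w) (FF_ne hw))^[m] '' YY),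
        ∀ y, eval (evalMap gamQ y) g = 0 := fun g hg y => by_contra fun h => hc ⟨g, hg, y, h⟩
    obtain ⟨c, hc⟩ := exists_smul_eq_mk_rep ℂ (pt 0 0) (pt_ne 0 0)
    have hrep : (PP 0 0).rep = (c : ℂ) • pt 0 0 := hc.symm
    have h1 : ![0, 1, 0, 0] ∈ tangentSpace ((projMap (FF w) (FF_ne hw))^[m] '' YY) (PP 0 0) := by
      rw [mem_tangentSpace, hrep]
      intro g hg
      have := tangent_of_curve ![0, Polynomial.X, 0, Polynomial.C (c : ℂ)] g (fun t => by
        rw [← hc' g hg ![t, c, 0, 1], evalMap_gamQ]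
        congr 2
        funext i
        fin_cases i <;> simp [seg])
      have e : (fun i => Polynomial.eval 0 (![0, Polynomial.X, 0, Polynomial.C (c : ℂ)] i)) =
          (c : ℂ) • pt 0 0 := by
        funext i; fin_cases i <;> simp [pt]
      rw [e] at this
      simpa [Fin.sum_univ_four] using this
    rw [hT] at h1
    obtain ⟨s, t, h2⟩ := Submodule.mem_span_pair.1 h1
    have h3 := congrFun h2 1
    have h4 := congrFun h2 2
    simp [pt, dir, hq] at h3 h4
    simp [h4] at h3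
  rw [idealOf_image_eq hw] at hex ⊢
  obtain ⟨g, hg, y, hy⟩ := hex
  have hR : ringKrullDim (MvPolynomial (Fin 4) ℂ) = 4 := by simp
  obtain ⟨u, hu, hu'⟩ := exists_exact hw 0
  obtain ⟨hQ, ha, -⟩ := it1_spec hu m
  obtain ⟨hS, hb, -⟩ := it2_spec hw hu m
  obtain ⟨hQ0, ha0, -⟩ := it1_spec (zero_mem_lev (w := w) 0) m
  obtain ⟨hS0, hb0, -⟩ := it2_spec hw (zero_mem_lev (w := w) 0) m
  rw [(iter_g_zero m).1, zero_mul] at ha0
  rw [(iter_g_zero m).2, zero_mul] at hb0
  refine dim_of_chain hR ⟨_, prime_range ![X 0, X 1, X 2, X 3]⟩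
    ⟨_, prime_range gamQ⟩ ⟨_, prime_range (gamIt w m)⟩
    ⟨_, prime_range ![0, 0, 0, X 0]⟩ ⟨_, prime_range ![0, 0, 0, 0]⟩ ?_ ?_ ?_ ?_
  · refine lt_of_witness _ _ (fun x => ⟨evalMap gamQ x, ?_⟩) (X 0 * X 3 - X 1 * X 2)
      (fun x => ?_) ![1, 0, 0, 1] ?_
    · funext i; fin_cases i <;> simp [evalMap]
    · simp [evalMap, gamQ]; ring
    · simp [evalMap]
  · refine lt_of_witness _ _ (fun x => ?_) g (fun x => hg _ ⟨x, rfl⟩) y hy
    obtain ⟨a, b, c, d, e⟩ := iter_seg_seg (w := w) m (x 0) (x 1) (x 0) (x 1)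
    exact ⟨![a, b, c, d], by rw [evalMap_gamQ, evalMap_gamIt, e]; rfl⟩
  · refine lt_of_witness _ _ (fun x => ?_) (X 2) (fun x => by simp [evalMap]) ![u, 1, 0, 0] ?_
    · obtain ⟨t0, t1, e⟩ := smul_iter_seg (w := w) m
        (x 0 / ((it1 w m).2.eval 0 * (it2 w m).2.eval 0)) 0 1
      refine ⟨![t0, t1, 0, 0], ?_⟩
      rw [evalMap_gamIt]
      change (evalMap (FF w))^[m] (seg t0 t1 t0 t1) = _
      rw [← e, iter_seg, ha0, hb0]
      funext i
      fin_cases i <;> simp [evalMap, seg]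
      field_simp
    · rw [evalMap_gamIt]
      change eval ((evalMap (FF w))^[m] (seg u 1 u 1)) (X 2) ≠ 0
      rw [iter_seg, hb, eval_X]
      refine mul_ne_zero hQ (mul_ne_zero (fun h => hu' ?_) hS)
      exact iter_g2_inj hw hu (zero_mem_lev _) m (h.trans (iter_g_zero m).2.symm)
  · refine lt_of_witness _ _ (fun x => ⟨0, ?_⟩) (X 3) (fun x => ?_) ![1, 0, 0, 0] ?_
    · funext i; fin_cases i <;> simp [evalMap]
    · simp [evalMap]
    · simp [evalMap]

/-- The line of the quadric with first coordinate `a`. -/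
def LL (a : ℂ) : Set (ℙ ℂ (Fin 4 → ℂ)) := {p | p.rep 0 = a * p.rep 2 ∧ p.rep 1 = a * p.rep 3}

theorem mk_mem_LL {a : ℂ} {v : Fin 4 → ℂ} (hv : v ≠ 0) :
    mk ℂ v hv ∈ LL a ↔ v 0 = a * v 2 ∧ v 1 = a * v 3 := by
  obtain ⟨c, hc⟩ := exists_smul_eq_mk_rep ℂ v hv
  have hc0 : (c : ℂ) ≠ 0 := c.ne_zero
  unfold LL
  rw [Set.mem_ofPred_eq, ← hc]
  simp only [Units.smul_def, Pi.smul_apply, smul_eq_mul]
  constructor
  · rintro ⟨h1, h2⟩
    exact ⟨mul_left_cancel₀ hc0 (by linear_combination h1),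
      mul_left_cancel₀ hc0 (by linear_combination h2)⟩
  · rintro ⟨h1, h2⟩
    exact ⟨by rw [h1]; ring, by rw [h2]; ring⟩

theorem rep_of_mem_LL {a : ℂ} {p : ℙ ℂ (Fin 4 → ℂ)} (hp : p ∈ LL a) :
    p.rep = seg a 1 (p.rep 2) (p.rep 3) := by
  funext i
  fin_cases i <;> simp [seg, hp.1, hp.2]

theorem idealOf_LL (a : ℂ) : idealOf (LL a) =
    vanishingIdeal ℂ (Set.range (evalMap ![C a * X 0, C a * X 1, X 0, X 1])) := by
  unfold idealOf
  congr 1
  ext v
  constructor
  · rintro ⟨p, hp, hv⟩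
    rw [submodule_eq, Submodule.mem_span_singleton] at hv
    obtain ⟨c, rfl⟩ := hv
    refine ⟨![c * p.rep 2, c * p.rep 3, 0, 0], ?_⟩
    funext i
    fin_cases i <;> simp [evalMap, hp.1, hp.2] <;> ring
  · rintro ⟨x, rfl⟩
    by_cases hv : evalMap ![C a * X 0, C a * X 1, X 0, X 1] x = 0
    · refine ⟨PP a 0, (mk_mem_LL _).2 (by simp [pt]), ?_⟩
      rw [hv]; exact zero_mem _
    · refine ⟨mk ℂ _ hv, (mk_mem_LL _).2 (by simp [evalMap]), ?_⟩
      rw [submodule_mk]; exact Submodule.mem_span_singleton_self _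

theorem LL_subvariety (a : ℂ) : IsSubvariety (LL a) 1 := by
  refine ⟨fun p hp => ?_, idealOf_LL a ▸ prime_range _, ?_⟩
  · rw [idealOf_LL] at hp
    have h1 := hp (X 0 - C a * X 2) (by rintro _ ⟨x, rfl⟩; simp [evalMap])
    have h2 := hp (X 1 - C a * X 3) (by rintro _ ⟨x, rfl⟩; simp [evalMap])
    simp only [map_sub, map_mul, eval_X, eval_C] at h1 h2
    exact ⟨sub_eq_zero.1 h1, sub_eq_zero.1 h2⟩
  rw [idealOf_LL]
  have hR : ringKrullDim (MvPolynomial (Fin 4) ℂ) = 4 := by simp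
  refine dim_of_chain hR ⟨_, prime_range ![X 0, X 1, X 2, X 3]⟩
    ⟨_, prime_range ![C a * X 0, X 2, X 0, X 1]⟩
    ⟨_, prime_range ![C a * X 0, C a * X 1, X 0, X 1]⟩
    ⟨_, prime_range ![C a * X 0, 0, X 0, 0]⟩ ⟨_, prime_range ![0, 0, 0, 0]⟩ ?_ ?_ ?_ ?_
  · refine lt_of_witness _ _ (fun x => ⟨![a * x 0, x 2, x 0, x 1], ?_⟩) (X 0 - C a * X 2)
      (fun x => ?_) ![1, 0, 0, 0] ?_
    · funext i; fin_cases i <;> simp [evalMap]
    · simp [evalMap]
    · simp [evalMap]
  · refine lt_of_witness _ _ (fun x => ⟨![x 0, x 1, a * x 1, 0], ?_⟩) (X 1 - C a * X 3)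
      (fun x => ?_) ![0, 0, 1, 0] ?_
    · funext i; fin_cases i <;> simp [evalMap]
    · simp [evalMap]
    · simp [evalMap]
  · refine lt_of_witness _ _ (fun x => ⟨![x 0, 0, 0, 0], ?_⟩) (X 3) (fun x => ?_)
      ![0, 1, 0, 0] ?_
    · funext i; fin_cases i <;> simp [evalMap]
    · simp [evalMap]
    · simp [evalMap]
  · refine lt_of_witness _ _ (fun x => ⟨0, ?_⟩) (X 2) (fun x => ?_) ![1, 0, 0, 0] ?_
    · funext i; fin_cases i <;> simp [evalMap]
    · simp [evalMap]
    · simp [evalMap]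

theorem image_LL (hw : w ^ 2 = w - 2) {a : ℂ} (ha : (w - 2) * a - 1 ≠ 0) :
    projMap (FF w) (FF_ne hw) '' LL a = LL (g1 w a) := by
  have hg : g1 w a * ((w - 2) * a - 1) = a * (a - (w - 2)) := div_mul_cancel₀ _ ha
  ext p
  constructor
  · rintro ⟨q, hq, rfl⟩
    rw [← mk_rep q, projMap_mk hw, mk_mem_LL, rep_of_mem_LL hq, evalMap_seg]
    simp only [seg, Matrix.cons_val]
    constructor
    · linear_combination (-((-1 - w) * (q.rep 2 * q.rep 3))) * hg
    · linear_combination (-(q.rep 2 + q.rep 3) ^ 2) * hg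
  · intro hp
    obtain ⟨r, hr⟩ := IsAlgClosed.exists_pow_nat_eq (p.rep 3) (n := 2) (by norm_num)
    obtain ⟨s, hs⟩ := IsAlgClosed.exists_pow_nat_eq (p.rep 3 - 4 * (p.rep 2 / (-1 - w))) (n := 2)
      (by norm_num)
    have hb := b_ne hw
    have e1 : (-1 - w) * ((r + s) / 2 * ((r - s) / 2)) = p.rep 2 := by
      have : (r + s) / 2 * ((r - s) / 2) = p.rep 2 / (-1 - w) := by
        linear_combination (1 / 4) * hr - (1 / 4) * hs
      rw [this]
      field_simp
    have e2 : ((r + s) / 2 + (r - s) / 2) ^ 2 = p.rep 3 := by linear_combination hr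
    have e3 : evalMap (FF w) (seg a 1 ((r + s) / 2) ((r - s) / 2)) =
        ((w - 2) * a - 1) • p.rep := by
      rw [evalMap_seg, e1, e2]
      funext i
      fin_cases i <;> simp [seg, hp.1, hp.2]
      · linear_combination (-p.rep 2) * hg
      · linear_combination (-p.rep 3) * hg
    have hv : seg a 1 ((r + s) / 2) ((r - s) / 2) ≠ 0 := fun h => by
      have h0 := iter_zero (w := w) 1
      rw [Function.iterate_one] at h0
      rw [h, h0] at e3
      exact smul_ne_zero ha p.rep_nonzero e3.symm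
    refine ⟨mk ℂ _ hv, (mk_mem_LL _).2 (by simp [seg]), ?_⟩
    rw [projMap_mk hw, ← mk_rep p, mk_eq_mk_iff']
    exact ⟨_, by rw [e3]⟩

theorem LL_preperiodic (hw : w ^ 2 = w - 2) :
    (projMap (FF w) (FF_ne hw))^[2 + 1] '' LL (-w) = (projMap (FF w) (FF_ne hw))^[2] '' LL (-w) := by
  have h1 : (w - 2) * (-w) - 1 ≠ 0 := fun h => by
    have : w = -1 := by linear_combination h + hw
    rw [this] at hw
    norm_num at hw
  have e1 : g1 w (-w) = w - 2 := by
    unfold g1
    rw [div_eq_iff h1]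
    linear_combination (w - 1) * hw
  have h2 : (w - 2) * (w - 2) - 1 ≠ 0 := fun h =>
    mul_ne_zero (a1_ne hw) (a3_ne hw) (by linear_combination h)
  have e2 : g1 w (w - 2) = 0 := by simp [g1]
  have h3 : (w - 2) * 0 - 1 ≠ 0 := by simp
  have e3 : g1 w 0 = 0 := by simp [g1]
  have k2 : (projMap (FF w) (FF_ne hw))^[2] '' LL (-w) = LL 0 := by
    rw [Function.iterate_succ', Function.iterate_one, Set.image_comp, image_LL hw h1, e1,
      image_LL hw h2, e2]
  rw [Function.iterate_succ', Set.image_comp, k2, image_LL hw h3, e3]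

theorem LL_critical (hw : w ^ 2 = w - 2) {p : ℙ ℂ (Fin 4 → ℂ)} (hp : p ∈ LL (-w)) :
    ¬ Function.Injective (jac (FF w) p.rep) := by
  intro h
  have h1 : jac (FF w) p.rep (seg 1 (-w) (p.rep 2) (p.rep 3)) = 0 := by
    rw [jac_FF, hp.1, hp.2]
    funext i
    fin_cases i <;>
      simp only [seg, Matrix.cons_val, Fin.reduceFinMk, Fin.zero_eta, Pi.zero_apply]
    · linear_combination ((1 - w) * (-1 - w) * p.rep 2 * p.rep 3) * hw
    · linear_combination (1 - w) * (p.rep 2 + p.rep 3) ^ 2 * hw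
    · linear_combination ((w - 1) * (-1 - w) * p.rep 2 * p.rep 3) * hw
    · linear_combination ((w - 1) * (p.rep 2 + p.rep 3) ^ 2) * hw
  have h2 := h (h1.trans (map_zero _).symm)
  have h3 := congrFun h2 0
  have h4 := congrFun h2 1
  simp [seg] at h3 h4
  apply p.rep_nonzero
  rw [rep_of_mem_LL hp, h3, h4]
  funext i
  fin_cases i <;> simp [seg]

end Pool.Agent.Work.MP_0a826e_ag
end

-- merged part: Pool.Agent.Work.MP_0a826e_ag.Inj
section
/-!
Points of the quadric at which the differential is invertible.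
-/

namespace Pool.Agent.Work.MP_0a826e_ag

open MvPolynomial Projectivization
open scoped LinearAlgebra.Projectivization

variable {w : ℂ}

theorem jac_inj (hw : w ^ 2 = w - 2) {a b : ℂ} (ha : (w - 2) * a - 1 ≠ 0) (hb : b + 1 ≠ 0)
    (h1 : d1 w a ≠ 0) (h2 : d2 w b ≠ 0) (h3 : w - 2 - a - a * b * ((w - 2) * a - 1) ≠ 0) :
    Function.Injective (jac (FF w) (PP a b).rep) := by
  obtain ⟨c, hc⟩ := exists_smul_eq_mk_rep ℂ (pt a b) (pt_ne a b)
  have hc0 : (c : ℂ) ≠ 0 := c.ne_zero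
  have hrep : (PP a b).rep = (c : ℂ) • pt a b := hc.symm
  rw [hrep, jac_smul, injective_iff_map_eq_zero]
  intro v hv
  rw [LinearMap.smul_apply, smul_eq_zero_iff_right hc0] at hv
  obtain ⟨p, hp⟩ : ∃ p, p = v 1 - a * v 3 := ⟨_, rfl⟩
  obtain ⟨q, hq⟩ : ∃ q, q = v 2 - b * v 3 := ⟨_, rfl⟩
  obtain ⟨e, he⟩ : ∃ e, e = v 0 - a * b * v 3 - p * b - q * a := ⟨_, rfl⟩
  have hdec : v = v 3 • pt a b + dir a b p q + e • ![1, 0, 0, 0] := by
    funext i
    fin_cases i <;> simp [pt, dir, he, hp, hq] <;> ring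
  have he0 : jac (FF w) (pt a b) ![1, 0, 0, 0] = ![(-1 - w) * (a - (w - 2)),
      (2 * a - (w - 2)) * (b + 1), (-1 - w) * (w - 2), (w - 2) * (b + 1)] := by
    rw [jac_FF]
    funext i
    fin_cases i <;> simp [pt] <;> ring
  rw [hdec, map_add, map_add, map_smul, map_smul, jac_pt, evalMap_pt ha hb, jac_dir ha hb,
    he0] at hv
  have k0 := congrFun hv 0
  have k1 := congrFun hv 1
  have k2 := congrFun hv 2
  have k3 := congrFun hv 3
  have hg1 : g1 w a * ((w - 2) * a - 1) = a * (a - (w - 2)) := div_mul_cancel₀ _ ha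
  have hg2 : g2 w b * (b + 1) ^ 2 = (-1 - w) * b := div_mul_cancel₀ _ (pow_ne_zero _ hb)
  simp only [pt, dir, Pi.add_apply, Pi.smul_apply, smul_eq_mul, Matrix.cons_val,
    Pi.zero_apply] at k0 k1 k2 k3
  generalize g1 w a = a' at *
  generalize g2 w b = b' at *
  have k4 : e * ((-1 - w) * (a - (w - 2)) + a' * b' * ((w - 2) * (b + 1)) -
      b' * ((2 * a - (w - 2)) * (b + 1)) - a' * ((-1 - w) * (w - 2))) = 0 := by
    linear_combination k0 + a' * b' * k3 - b' * k1 - a' * k2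
  have k5 : e * ((-1 - w) * (b + 1) * (w - 2 - a - a * b * ((w - 2) * a - 1))) = 0 := by
    linear_combination (((w - 2) * a - 1) * (b + 1) ^ 2) * k4 -
      e * ((w - 2) * (b + 1) * (b' * (b + 1) ^ 2) - (-1 - w) * (w - 2) * (b + 1) ^ 2) * hg1 -
      e * ((w - 2) * (b + 1) * (a * (a - (w - 2))) -
        (2 * a - (w - 2)) * (b + 1) * ((w - 2) * a - 1)) * hg2
  have e0 : e = 0 :=
    (mul_eq_zero.1 k5).resolve_right (mul_ne_zero (mul_ne_zero (b_ne hw) hb) h3)
  have hM : ((w - 2) * a - 1) * (b + 1) ^ 2 ≠ 0 := mul_ne_zero ha (pow_ne_zero _ hb)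
  rw [e0] at k1 k2 k3
  have p0 : p = 0 := by
    have : ((w - 2) * a - 1) * (b + 1) ^ 2 * (d1 w a * p) = 0 := by
      linear_combination k1 - a' * k3
    exact (mul_eq_zero.1 ((mul_eq_zero.1 this).resolve_left hM)).resolve_left h1
  have q0 : q = 0 := by
    have : ((w - 2) * a - 1) * (b + 1) ^ 2 * (d2 w b * q) = 0 := by
      linear_combination k2 - b' * k3
    exact (mul_eq_zero.1 ((mul_eq_zero.1 this).resolve_left hM)).resolve_left h2
  have v0 : v 3 = 0 := by
    rw [p0, q0] at k3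
    have : ((w - 2) * a - 1) * (b + 1) ^ 2 * (2 * v 3) = 0 := by linear_combination k3
    simpa using (mul_eq_zero.1 this).resolve_left hM
  rw [hdec, v0, p0, q0, e0]
  funext i
  fin_cases i <;> simp [dir]

theorem jac_inj_late (hw : w ^ 2 = w - 2) {k : ℕ} {u : ℂ} (hu : u ∈ lev w k) {m : ℕ} (hm : k ≤ m) :
    Function.Injective (jac (FF w) (PP ((g1 w)^[m] u) ((g2 w)^[m] u)).rep) := by
  obtain ⟨j, rfl⟩ := Nat.exists_eq_add_of_le' hm
  rw [Function.iterate_add_apply (g1 w), iter_g1_eq_zero hu, (iter_g_zero j).1]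
  have hb := iter_g2_mem hw hu (j + k)
  refine jac_inj hw (by simp) (add_one_ne hw hb) ?_ (d2_ne_zero hw hb) (by simpa using a_ne hw)
  simpa [d1] using a_ne hw

/-- The parameters used: finite level at least two, and invertible differential. -/
def good (w : ℂ) : Set ℂ := {u | ((∃ k, u ∈ lev w k) ∧ u ∉ lev w 1) ∧
  ((w - 2) * u ^ 2 - 2 * u + (w - 2)) * (w - 2 - u - u * u * ((w - 2) * u - 1)) ≠ 0}

theorem good_infinite' (hw : w ^ 2 = w - 2) : (good w).Infinite := by
  let P : Polynomial ℂ := (Polynomial.C (w - 2) * Polynomial.X ^ 2 -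
    Polynomial.C 2 * Polynomial.X + Polynomial.C (w - 2)) * (Polynomial.C (w - 2) - Polynomial.X -
      Polynomial.X * Polynomial.X * (Polynomial.C (w - 2) * Polynomial.X - 1))
  have hP : ∀ u, P.eval u =
      ((w - 2) * u ^ 2 - 2 * u + (w - 2)) * (w - 2 - u - u * u * ((w - 2) * u - 1)) := by
    intro u
    simp only [P, Polynomial.eval_mul, Polynomial.eval_add, Polynomial.eval_sub,
      Polynomial.eval_pow, Polynomial.eval_C, Polynomial.eval_X, Polynomial.eval_one]
  have hP0 : P ≠ 0 := fun h => by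
    have := hP 0
    rw [h, Polynomial.eval_zero] at this
    exact mul_ne_zero (a_ne hw) (a_ne hw) (by linear_combination -this)
  refine ((good_infinite hw).sdiff (Polynomial.finite_setOfPred_isRoot hP0)).mono ?_
  rintro u ⟨h1, h2⟩
  exact ⟨h1, fun h => h2 ((hP u).trans h)⟩

theorem jac_inj_good (hw : w ^ 2 = w - 2) {u : ℂ} (hu : u ∈ good w) :
    Function.Injective (jac (FF w) (PP u u).rep) := by
  obtain ⟨⟨⟨k, hk⟩, -⟩, h⟩ := hu
  exact jac_inj hw (den_ne hk) (add_one_ne hw hk)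
    (div_ne_zero (left_ne_zero_of_mul h) (pow_ne_zero _ (den_ne hk))) (d2_ne_zero hw hk)
    (right_ne_zero_of_mul h)

end Pool.Agent.Work.MP_0a826e_ag
end
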